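import Mathlib
import Pool.Agent.Helper8.Order.Eval

/-!
# Frequencies with weighted exponential sum bounds
-/

namespace Pool.Agent.Helper8.Transfer

open Polynomial Finset Filter Topology Pool.Agent.Helper8.Dilation Pool.Agent.Helper8.Order

/-- weights of size at most `n ^ (1/16)` -/
def Grow (g : ℕ → ℝ) : Prop := ∃ B : ℝ, 0 < B ∧ ∀ n : ℕ, |g n| ^ 16 ≤ B * ((n : ℝ) + 1)

/-- Properties of the frequencies `τ i` of the pieces and of the mixing frequencies `δ i`, for given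
signs `σ p` and weights `G j`. -/
structure WFreq (d : ℕ) (σ : ℕ → ℝ) (G : ℕ → ℕ → ℝ) (τ δ : ℕ → ℝ) : Prop where
  size : ∀ᶠ i : ℕ in atTop, (2 : ℝ) ^ ((2 * d + 1) * i ^ 4) ≤ τ i ∧
      τ i ≤ 2 * (2 : ℝ) ^ ((2 * d + 1) * i ^ 4)
  slow : ∀ᶠ i : ℕ in atTop, 1 ≤ δ i ∧ δ i ≤ i
  kron : ∀ p : ℕ, p.Prime → ∀ η : ℝ, 0 < η → ∀ᶠ i : ℕ in atTop,
      (∃ m : ℤ, (-1 : ℝ) ^ m = σ p ∧ |τ i * Real.log p - m| ≤ η) ∧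
      ∃ m : ℤ, |δ i * Real.log p - m| ≤ η
  bound : ∀ j : ℕ, ∀ p : ℤ[X], ¬ ((X - 1) ^ (d + 1) ∣ p) → ∀ ε : ℝ, 0 < ε → ∀ᶠ i : ℕ in atTop,
      ∀ N : ℕ, 4 ^ (i ^ 4) ≤ N → N ≤ 4 ^ ((i + 1) ^ 4 + i) → ∀ t : ℝ, (t = τ i ∨ t = τ (i + 1)) →
      ∀ a b : ℕ, ε * N ≤ a → a ≤ b → b ≤ N →
      ‖∑ n ∈ Ioc a b, (G j n : ℂ) * E t p n‖ * (δ i + 1) ≤ ε * N

end Pool.Agent.Helper8.Transfer
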