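import Mathlib
import Pool.Agent.Helper64.HLC.NearW

/-!
# Weighted correlations of the glued function
-/

namespace Pool.Agent.Helper8.Transfer

open Polynomial Finset Filter Topology Pool.Agent.Helper8.Dilation Pool.Agent.Helper8.Order

lemma E_shift (t : ℝ) (m u n : ℕ) : E t (C (2 * (m : ℤ)) * X ^ u) n
    = Complex.exp ((2 * Real.pi * m * (t * Real.log ((n + u : ℕ) : ℝ)) : ℝ) * Complex.I) := by
  unfold E
  rw [L_monomial]
  congr 2
  push_cast; ring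

/-- Few `n` (counted with weights) have `t log (n + u)` close to integers. -/
lemma near_block {d : ℕ} {σ : ℕ → ℝ} {G : ℕ → ℕ → ℝ} {τ δ : ℕ → ℝ} (hF : WFreq d σ G τ δ)
    (j : ℕ) (hpos : ∀ n, 0 ≤ G j n) (ε : ℝ) (hε : 0 < ε) :
    ∃ η : ℝ, 0 < η ∧ ∀ u : ℕ, ∀ ε' : ℝ, 0 < ε' → ∀ᶠ i : ℕ in atTop, ∀ N : ℕ, 4 ^ (i ^ 4) ≤ N →
      N ≤ 4 ^ ((i + 1) ^ 4 + i) → ∀ t : ℝ, (t = τ i ∨ t = τ (i + 1)) →
      ∀ a : ℕ, ε' * N ≤ a → a ≤ N →
      ∀ B : Finset ℕ, B ⊆ Ioc a N → (∀ n ∈ B, n + u ∈ Nr t 0 η) →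
        ∑ n ∈ B, G j n ≤ ε * (N + ∑ n ∈ Ioc a N, G j n) := by
  classical
  obtain ⟨η, hη, δ1, hδ1, K, hK⟩ := near_w ε hε
  refine ⟨η, hη, fun u ε' hε' => ?_⟩
  have h1 : ∀ m ∈ Finset.Icc 1 K, ∀ᶠ i : ℕ in atTop,
      ∀ N : ℕ, 4 ^ (i ^ 4) ≤ N → N ≤ 4 ^ ((i + 1) ^ 4 + i) → ∀ t : ℝ, (t = τ i ∨ t = τ (i + 1)) →
      ∀ a b : ℕ, min ε' δ1 * N ≤ a → a ≤ b → b ≤ N →
      ‖∑ n ∈ Ioc a b, (G j n : ℂ) * E t (C (2 * (m : ℤ)) * X ^ u) n‖ * (δ i + 1)
        ≤ min ε' δ1 * N := by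
    intro m hm
    rw [Finset.mem_Icc] at hm
    apply hF.bound _ _ _ _ (lt_min hε' hδ1)
    rintro ⟨q, hq⟩
    have h2 := congrArg (Polynomial.eval 1) hq
    simp only [eval_C, eval_mul, eval_pow, eval_sub, eval_X, eval_one, sub_self, one_pow,
      mul_one] at h2
    rw [zero_pow (by omega), zero_mul] at h2
    omega
  filter_upwards [(Finset.eventually_all _).mpr h1, hF.slow] with i hi hδi
  intro N hN1 hN2 t ht a ha haN B hB hBn
  have hN0 : (0 : ℝ) ≤ N := by positivity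
  refine hK N (Ioc a N) (fun n => G j n) (fun n => t * Real.log ((n + u : ℕ) : ℝ)) hpos ?_ B hB ?_
  · intro m hm1 hm2
    have h3 := hi m (Finset.mem_Icc.mpr ⟨hm1, hm2⟩) N hN1 hN2 t ht a N
      ((mul_le_mul_of_nonneg_right (min_le_left _ _) hN0).trans ha) haN le_rfl
    simp_rw [E_shift] at h3
    have h4 := mul_le_mul_of_nonneg_left (show (1 : ℝ) ≤ δ i + 1 by linarith [hδi.1])
      (norm_nonneg (∑ n ∈ Ioc a N, (G j n : ℂ) *
        Complex.exp ((2 * Real.pi * m * (t * Real.log ((n + u : ℕ) : ℝ)) : ℝ) * Complex.I)))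
    have h5 : min ε' δ1 * N ≤ δ1 * N := mul_le_mul_of_nonneg_right (min_le_right _ _) hN0
    linarith
  · intro n hn
    obtain ⟨k, hk⟩ := hBn n hn
    exact ⟨k, by simpa using hk⟩

/-- Main evaluation on a weighted interval. -/
lemma piece_w {d : ℕ} {σ : ℕ → ℝ} {G : ℕ → ℕ → ℝ} {τ δ : ℕ → ℝ} (hF : WFreq d σ G τ δ) (j : ℕ)
    {k : ℕ} (h : Fin k → ℕ) (a : ℕ → ℕ → ℝ) (M : ℕ)
    (C1 : ℝ) (hC1 : 0 ≤ C1) (ε2 : ℝ) (hε2 : 0 < ε2) (ε' : ℝ) (hε' : 0 < ε') :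
    ∀ᶠ i : ℕ in atTop, ∀ N : ℕ, 4 ^ (i ^ 4) ≤ N → N ≤ 4 ^ ((i + 1) ^ 4 + i) → ∀ t : ℝ,
      (t = τ i ∨ t = τ (i + 1)) →
      ∀ a0 : ℕ, ε' * N ≤ a0 → a0 ≤ N → ∀ w : ℕ → ℝ, (∀ n, 0 ≤ w n ∧ w n ≤ 1) →
      ∑ n ∈ Ico a0 N, |w (n + 1) - w n| ≤ C1 * (δ i + 1) →
      ‖∑ n ∈ Ioc a0 N, (w n : ℂ) * ((G j n : ℂ) *
          ((∏ i, ap a M (t * Real.log ((n + h i : ℕ) : ℝ)) : ℝ) : ℂ))
        - LM a M h d * ∑ n ∈ Ioc a0 N, (w n : ℂ) * (G j n : ℂ)‖
        ≤ ε2 * (N + ∑ n ∈ Ioc a0 N, |G j n|) := by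
  classical
  set Tk := Fintype.piFinset (fun _ : Fin k => T M) with hTk
  set Sc : ℝ := ∑ s ∈ Tk, ‖∏ i, coef a M (s i)‖ with hSc
  have hSc0 : 0 ≤ Sc := Finset.sum_nonneg fun _ _ => norm_nonneg _
  set ε3 : ℝ := ε2 / (1 + Sc) with hε3
  have hε3pos : 0 < ε3 := by positivity
  have hsize : ∀ᶠ i : ℕ in atTop, ∀ t : ℝ, (t = τ i ∨ t = τ (i + 1)) →
      (2 : ℝ) ^ ((2 * d + 1) * i ^ 4) ≤ t ∧ t ≤ 2 * (2 : ℝ) ^ ((2 * d + 1) * (i + 1) ^ 4) := by
    filter_upwards [hF.size, (tendsto_add_atTop_nat 1).eventually hF.size] with i h1 h2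
    have hpowmono : (2 : ℝ) ^ ((2 * d + 1) * i ^ 4) ≤ 2 ^ ((2 * d + 1) * (i + 1) ^ 4) := by
      apply pow_le_pow_right₀ (by norm_num)
      apply Nat.mul_le_mul_left
      exact Nat.pow_le_pow_left (by omega) 4
    intro t ht
    rcases ht with rfl | rfl
    · exact ⟨h1.1, by linarith [h1.2]⟩
    · exact ⟨by linarith [h2.1], h2.2⟩
  have main : ∀ s ∈ Tk, ∀ᶠ i : ℕ in atTop, ∀ N : ℕ, 4 ^ (i ^ 4) ≤ N → N ≤ 4 ^ ((i + 1) ^ 4 + i) →
      ∀ t : ℝ, (t = τ i ∨ t = τ (i + 1)) →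
      ∀ a0 : ℕ, ε' * N ≤ a0 → a0 ≤ N → ∀ w : ℕ → ℝ, (∀ n, 0 ≤ w n ∧ w n ≤ 1) →
      ∑ n ∈ Ico a0 N, |w (n + 1) - w n| ≤ C1 * (δ i + 1) →
      ‖∑ n ∈ Ioc a0 N, (w n : ℂ) * ((G j n : ℂ) * E t (pol h s) n)
        - (if (X - 1) ^ (d + 1) ∣ pol h s then 1 else 0)
          * ∑ n ∈ Ioc a0 N, (w n : ℂ) * (G j n : ℂ)‖ ≤ ε3 * (N + ∑ n ∈ Ioc a0 N, |G j n|) := by
    intro s _
    by_cases hs : (X - 1) ^ (d + 1) ∣ pol h s
    · obtain ⟨K, hK, hup⟩ := L_upper (d + 1) (by omega) _ hs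
      filter_upwards [regime d (Real.pi * K / (ε' ^ (d + 1) * ε3)), hsize] with i hi hsz
      intro N hN1 hN2 t ht a0 ha0 ha0N w hw _
      obtain ⟨ht1, ht2⟩ := hsz t ht
      have hreg := (hi N hN1 hN2 t ht1 ht2).2
      have hN0 : (0 : ℝ) < N := by
        have : 0 < 4 ^ (i ^ 4) := by positivity
        exact_mod_cast lt_of_lt_of_le this hN1
      have ht0 : 0 < t := lt_of_lt_of_le (by positivity) ht1
      rw [if_pos hs, one_mul, ← Finset.sum_sub_distrib]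
      refine (norm_sum_le _ _).trans ?_
      have hpt : ∀ n ∈ Ioc a0 N, ‖(w n : ℂ) * ((G j n : ℂ) * E t (pol h s) n)
          - (w n : ℂ) * (G j n : ℂ)‖ ≤ ε3 * |G j n| := by
        intro n hn
        rw [Finset.mem_Ioc] at hn
        have hn0 : (0 : ℝ) < n := by exact_mod_cast (by omega : 0 < n)
        have han : ε' * N ≤ n := ha0.trans (by exact_mod_cast hn.1.le)
        have e1 : (w n : ℂ) * ((G j n : ℂ) * E t (pol h s) n) - (w n : ℂ) * (G j n : ℂ)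
            = (w n : ℂ) * ((G j n : ℂ) * (E t (pol h s) n - 1)) := by ring
        rw [e1, norm_mul, norm_mul, Complex.norm_real, Complex.norm_real, Real.norm_eq_abs,
          Real.norm_eq_abs, abs_of_nonneg (hw n).1]
        have e2 : ‖E t (pol h s) n - 1‖ ≤ |Real.pi * t * L (pol h s) n| := by
          have := cexp_sub_le (Real.pi * t * L (pol h s) n) 0
          simpa [E] using this
        have e3 : |Real.pi * t * L (pol h s) n| ≤ ε3 := by
          rw [abs_mul, abs_of_pos (mul_pos Real.pi_pos ht0)]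
          have h1 := hup n (by omega)
          have h2 : K / (n : ℝ) ^ (d + 1) ≤ K / (ε' * N) ^ (d + 1) := by
            apply div_le_div_of_nonneg_left hK.le (by positivity)
            exact pow_le_pow_left₀ (by positivity) han _
          have h3 : Real.pi * t * |L (pol h s) n| ≤ Real.pi * t * (K / (ε' * N) ^ (d + 1)) :=
            mul_le_mul_of_nonneg_left (h1.trans h2) (mul_pos Real.pi_pos ht0).le
          refine h3.trans ?_
          rw [div_mul_eq_mul_div, div_le_iff₀ (by positivity)] at hreg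
          rw [mul_pow, ← mul_div_assoc, div_le_iff₀ (by positivity)]
          linarith
        calc w n * (|G j n| * ‖E t (pol h s) n - 1‖) ≤ 1 * (|G j n| * ε3) := by
              apply mul_le_mul (hw n).2 _ (by positivity) (by norm_num)
              exact mul_le_mul_of_nonneg_left (e2.trans e3) (abs_nonneg _)
          _ = ε3 * |G j n| := by ring
      refine (Finset.sum_le_sum hpt).trans ?_
      rw [← Finset.mul_sum]
      apply mul_le_mul_of_nonneg_left _ hε3pos.le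
      linarith
    · filter_upwards [hF.bound j _ hs (min ε' (ε3 / (1 + C1))) (by positivity), hF.slow] with i hi hδi
      intro N hN1 hN2 t ht a0 ha0 ha0N w hw hvar
      have hN0 : (0 : ℝ) < N := by
        have : 0 < 4 ^ (i ^ 4) := by positivity
        exact_mod_cast lt_of_lt_of_le this hN1
      set εF := min ε' (ε3 / (1 + C1)) with hεF
      have hεF0 : 0 < εF := by positivity
      rw [if_neg hs, zero_mul, sub_zero]
      have hδ1 : 0 < δ i + 1 := by linarith [hδi.1]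
      have hab := abel w hw (fun n => (G j n : ℂ) * E t (pol h s) n) a0 N ha0N
        (εF * N / (δ i + 1)) (by
        intro b' hb1 hb2
        rw [le_div_iff₀ hδ1]
        exact hi N hN1 hN2 t ht a0 b'
          ((mul_le_mul_of_nonneg_right (min_le_left _ _) hN0.le).trans ha0) hb1 hb2)
      refine hab.trans ?_
      have h1 : 1 + ∑ n ∈ Ico a0 N, |w (n + 1) - w n| ≤ (1 + C1) * (δ i + 1) := by
        nlinarith [hδi.1]
      have hGs : 0 ≤ ∑ n ∈ Ioc a0 N, |G j n| := Finset.sum_nonneg fun _ _ => abs_nonneg _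
      calc (1 + ∑ n ∈ Ico a0 N, |w (n + 1) - w n|) * (εF * N / (δ i + 1))
          ≤ (1 + C1) * (δ i + 1) * (εF * N / (δ i + 1)) :=
            mul_le_mul_of_nonneg_right h1 (by positivity)
        _ = (1 + C1) * εF * N := by field_simp
        _ ≤ ε3 * N := by
            apply mul_le_mul_of_nonneg_right _ hN0.le
            have : εF ≤ ε3 / (1 + C1) := min_le_right _ _
            rw [le_div_iff₀ (by positivity)] at this
            linarith
        _ ≤ ε3 * (N + ∑ n ∈ Ioc a0 N, |G j n|) := by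
            apply mul_le_mul_of_nonneg_left _ hε3pos.le
            linarith
  filter_upwards [(Finset.eventually_all _).mpr main] with i hi
  intro N hN1 hN2 t ht a0 ha0 ha0N w hw hvar
  have e1 : ∑ n ∈ Ioc a0 N, (w n : ℂ) * ((G j n : ℂ) *
          ((∏ i, ap a M (t * Real.log ((n + h i : ℕ) : ℝ)) : ℝ) : ℂ))
        - LM a M h d * ∑ n ∈ Ioc a0 N, (w n : ℂ) * (G j n : ℂ)
      = ∑ s ∈ Tk, (∏ i, coef a M (s i)) * (∑ n ∈ Ioc a0 N, (w n : ℂ) * ((G j n : ℂ) * E t (pol h s) n)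
        - (if (X - 1) ^ (d + 1) ∣ pol h s then 1 else 0)
          * ∑ n ∈ Ioc a0 N, (w n : ℂ) * (G j n : ℂ)) := by
    simp_rw [prod_expand]
    unfold LM
    rw [Finset.sum_filter]
    simp_rw [mul_sub, Finset.sum_sub_distrib]
    congr 1
    · simp_rw [Finset.mul_sum]
      rw [Finset.sum_comm]
      refine Finset.sum_congr rfl fun s _ => Finset.sum_congr rfl fun n _ => ?_
      ring
    · rw [Finset.sum_mul]
      refine Finset.sum_congr rfl fun s _ => ?_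
      split_ifs <;> ring
  rw [e1]
  refine (norm_sum_le _ _).trans ?_
  have hN0 : (0 : ℝ) ≤ N := by positivity
  set Z : ℝ := N + ∑ n ∈ Ioc a0 N, |G j n| with hZ
  have hZ0 : 0 ≤ Z := by
    have : 0 ≤ ∑ n ∈ Ioc a0 N, |G j n| := Finset.sum_nonneg fun _ _ => abs_nonneg _
    linarith
  calc ∑ s ∈ Tk, ‖(∏ i, coef a M (s i)) * (∑ n ∈ Ioc a0 N, (w n : ℂ) * ((G j n : ℂ) * E t (pol h s) n)
        - (if (X - 1) ^ (d + 1) ∣ pol h s then 1 else 0)
          * ∑ n ∈ Ioc a0 N, (w n : ℂ) * (G j n : ℂ))‖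
      ≤ ∑ s ∈ Tk, ‖∏ i, coef a M (s i)‖ * (ε3 * Z) := by
        refine Finset.sum_le_sum fun s hs => ?_
        rw [norm_mul]
        exact mul_le_mul_of_nonneg_left (hi s hs N hN1 hN2 t ht a0 ha0 ha0N w hw hvar)
          (norm_nonneg _)
    _ = Sc * (ε3 * Z) := by rw [← Finset.sum_mul]
    _ ≤ (1 + Sc) * ε3 * Z := by nlinarith [mul_nonneg hε3pos.le hZ0]
    _ = ε2 * Z := by rw [hε3]; field_simp

/-- The total error of the approximation of the sign by the trigonometric polynomial. -/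
lemma approx_sum_w (v : ℕ → ℝ) (hv : ∀ n, 0 ≤ v n) (a : ℕ → ℕ → ℝ) (M : ℕ)
    (ha1 : ∀ x, |ap a M x| ≤ 1) (η ε1 : ℝ) (hε1 : 0 ≤ ε1)
    (ha2 : ∀ x : ℝ, (∀ k : ℤ, η < |x - k|) → |(-1 : ℝ) ^ ⌊x⌋ - ap a M x| ≤ ε1) (t : ℝ)
    (a0 N u : ℕ)
    (hcnt : ∀ B : Finset ℕ, B ⊆ Ioc a0 N → (∀ n ∈ B, n + u ∈ Nr t 0 η) →
        ∑ n ∈ B, v n ≤ ε1 * (N + ∑ n ∈ Ioc a0 N, v n)) :
    ∑ n ∈ Ioc a0 N, v n * |sgn t (n + u) - ap a M (t * Real.log ((n + u : ℕ) : ℝ))|
      ≤ 3 * ε1 * (N + ∑ n ∈ Ioc a0 N, v n) := by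
  classical
  have h2 : ∀ n : ℕ, |sgn t n - ap a M (t * Real.log n)| ≤ 2 := by
    intro n
    have h1 := abs_sub (sgn t n) (ap a M (t * Real.log n))
    have h3 := sgn_abs t n
    have h4 := ha1 (t * Real.log n)
    linarith
  set B := (Ioc a0 N).filter (fun n => n + u ∈ Nr t 0 η) with hB
  have h6 : ∀ n ∈ Ioc a0 N, v n * |sgn t (n + u) - ap a M (t * Real.log ((n + u : ℕ) : ℝ))|
      ≤ ε1 * v n + if n + u ∈ Nr t 0 η then 2 * v n else 0 := by
    intro n _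
    split_ifs with hn
    · have := mul_le_mul_of_nonneg_left (h2 (n + u)) (hv n)
      have h3 : 0 ≤ ε1 * v n := mul_nonneg hε1 (hv n)
      linarith
    · rw [add_zero, mul_comm ε1]
      apply mul_le_mul_of_nonneg_left _ (hv n)
      exact ha2 (t * Real.log ((n + u : ℕ) : ℝ)) (fun k => by
        have := not_Nr hn k
        rwa [sub_zero] at this)
  refine (Finset.sum_le_sum h6).trans ?_
  rw [Finset.sum_add_distrib, ← Finset.mul_sum, ← Finset.sum_filter, ← Finset.mul_sum]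
  have h7 := hcnt B (Finset.filter_subset _ _) (fun n hn => (Finset.mem_filter.mp hn).2)
  have hN0 : (0 : ℝ) ≤ ε1 * N := by positivity
  linarith

/-- Replacing signs by trigonometric polynomials in products. -/
lemma prod_approx_w (g : ℕ → ℝ) {k : ℕ} (h : Fin k → ℕ) (a : ℕ → ℕ → ℝ) (M : ℕ)
    (ha1 : ∀ x, |ap a M x| ≤ 1) (t : ℝ) (a0 N : ℕ) (R : ℝ)
    (hR : ∀ i, ∑ n ∈ Ioc a0 N, |g n| * |sgn t (n + h i)
      - ap a M (t * Real.log ((n + h i : ℕ) : ℝ))| ≤ R) (w : ℕ → ℝ)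
    (hw : ∀ n, 0 ≤ w n ∧ w n ≤ 1) :
    |∑ n ∈ Ioc a0 N, w n * (g n * ∏ j, sgn t (n + h j))
      - ∑ n ∈ Ioc a0 N, w n * (g n * ∏ j, ap a M (t * Real.log ((n + h j : ℕ) : ℝ)))| ≤ k * R := by
  rw [← Finset.sum_sub_distrib]
  refine (Finset.abs_sum_le_sum_abs _ _).trans ?_
  have h1 : ∀ n ∈ Ioc a0 N, |w n * (g n * ∏ j, sgn t (n + h j))
      - w n * (g n * ∏ j, ap a M (t * Real.log ((n + h j : ℕ) : ℝ)))|
      ≤ ∑ j, |g n| * |sgn t (n + h j) - ap a M (t * Real.log ((n + h j : ℕ) : ℝ))| := by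
    intro n _
    rw [← mul_sub, ← mul_sub, abs_mul, abs_mul, abs_of_nonneg (hw n).1]
    have h2 := prod_diff Finset.univ (fun j => sgn t (n + h j))
      (fun j => ap a M (t * Real.log ((n + h j : ℕ) : ℝ))) (fun j => sgn_abs t _) (fun j => ha1 _)
    rw [← Finset.mul_sum]
    calc w n * (|g n| * |∏ j, sgn t (n + h j) - ∏ j, ap a M (t * Real.log ((n + h j : ℕ) : ℝ))|)
        ≤ 1 * (|g n| * |∏ j, sgn t (n + h j) - ∏ j, ap a M (t * Real.log ((n + h j : ℕ) : ℝ))|) :=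
          mul_le_mul_of_nonneg_right (hw n).2 (by positivity)
      _ = |g n| * |∏ j, sgn t (n + h j) - ∏ j, ap a M (t * Real.log ((n + h j : ℕ) : ℝ))| :=
          one_mul _
      _ ≤ _ := mul_le_mul_of_nonneg_left h2 (abs_nonneg _)
  refine (Finset.sum_le_sum h1).trans ?_
  rw [Finset.sum_comm]
  refine (Finset.sum_le_sum fun j _ => hR j).trans ?_
  rw [Finset.sum_const, Finset.card_univ, Fintype.card_fin, nsmul_eq_mul]

lemma grow_sq {g : ℕ → ℝ} (hg : Grow g) : ∃ B : ℝ, 0 < B ∧ ∀ n : ℕ, |g n| ^ 2 ≤ B * ((n : ℝ) + 1) := by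
  obtain ⟨B, hB, h⟩ := hg
  refine ⟨B + 1, by linarith, fun n => ?_⟩
  by_contra hcon
  push Not at hcon
  have hn : (0 : ℝ) ≤ n := by positivity
  have h1 : (1 : ℝ) ≤ (n : ℝ) + 1 := by linarith
  have h2 : 1 ≤ (B + 1) * ((n : ℝ) + 1) := by nlinarith
  have h3 : ((B + 1) * ((n : ℝ) + 1)) ^ 8 < (|g n| ^ 2) ^ 8 :=
    pow_lt_pow_left₀ hcon (by positivity) (by norm_num)
  rw [← pow_mul, show 2 * 8 = 16 from rfl] at h3
  have h4 := h n
  have h5 : (B + 1) * ((n : ℝ) + 1) ≤ ((B + 1) * ((n : ℝ) + 1)) ^ 8 := by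
    calc (B + 1) * ((n : ℝ) + 1) = ((B + 1) * ((n : ℝ) + 1)) ^ 1 := (pow_one _).symm
      _ ≤ ((B + 1) * ((n : ℝ) + 1)) ^ 8 := pow_le_pow_right₀ h2 (by norm_num)
  have h6 : B * ((n : ℝ) + 1) ≤ (B + 1) * ((n : ℝ) + 1) :=
    mul_le_mul_of_nonneg_right (by linarith) (by positivity)
  linarith

/-- slowly varying factors are harmless -/
lemma grow_small {g : ℕ → ℝ} (hg : Grow g) (c ε : ℝ) (hε : 0 < ε) :
    ∀ᶠ N : ℕ in atTop, ∀ n : ℕ, n ≤ N → |g n| * (c * (Real.log N + 1)) ≤ ε * N := by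
  obtain ⟨B, hB, h⟩ := grow_sq hg
  have h1 : (fun x : ℝ => Real.sqrt (2 * B) * |c| * (Real.log x + 1)) =o[atTop]
      (fun x : ℝ => x ^ (1 / 2 : ℝ)) := by
    have h2 : (fun x : ℝ => Real.log x) =o[atTop] (fun x : ℝ => x ^ (1 / 2 : ℝ)) :=
      isLittleO_log_rpow_atTop (by norm_num)
    have h3 : (fun _ : ℝ => (1 : ℝ)) =o[atTop] (fun x : ℝ => x ^ (1 / 2 : ℝ)) := by
      rw [Asymptotics.isLittleO_const_left]
      right
      exact tendsto_norm_atTop_atTop.comp (tendsto_rpow_atTop (by norm_num))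
    exact (h2.add h3).const_mul_left _
  have h5 := (h1.comp_tendsto tendsto_natCast_atTop_atTop).bound hε
  filter_upwards [h5, eventually_ge_atTop 1] with N hN hN1
  intro n hn
  have hN0 : (0 : ℝ) < N := by exact_mod_cast hN1
  have hN1' : (1 : ℝ) ≤ N := by exact_mod_cast hN1
  have hlog : 0 ≤ Real.log N := Real.log_nonneg hN1'
  simp only [Function.comp, Real.norm_eq_abs] at hN
  rw [← Real.sqrt_eq_rpow, abs_of_nonneg (Real.sqrt_nonneg _), abs_of_nonneg (by positivity)] at hN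
  have hgn : |g n| ≤ Real.sqrt (2 * B) * Real.sqrt N := by
    rw [← Real.sqrt_mul (by positivity)]
    apply Real.le_sqrt_of_sq_le
    have hnN : (n : ℝ) ≤ N := by exact_mod_cast hn
    calc |g n| ^ 2 ≤ B * ((n : ℝ) + 1) := h n
      _ ≤ B * (2 * N) := mul_le_mul_of_nonneg_left (by linarith) hB.le
      _ = 2 * B * N := by ring
  calc |g n| * (c * (Real.log N + 1)) ≤ |g n| * (|c| * (Real.log N + 1)) := by
        apply mul_le_mul_of_nonneg_left _ (abs_nonneg _)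
        exact mul_le_mul_of_nonneg_right (le_abs_self c) (by positivity)
    _ ≤ (Real.sqrt (2 * B) * Real.sqrt N) * (|c| * (Real.log N + 1)) :=
        mul_le_mul_of_nonneg_right hgn (by positivity)
    _ = (Real.sqrt (2 * B) * |c| * (Real.log N + 1)) * Real.sqrt N := by ring
    _ ≤ (ε * Real.sqrt N) * Real.sqrt N := mul_le_mul_of_nonneg_right hN (Real.sqrt_nonneg _)
    _ = ε * N := by rw [mul_assoc, Real.mul_self_sqrt hN0.le]

/-- Evaluation on a dyadic block. -/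
theorem block_w {d : ℕ} {σ : ℕ → ℝ} {G : ℕ → ℕ → ℝ} {τ δ : ℕ → ℝ} (hF : WFreq d σ G τ δ)
    (j j' : ℕ) (hG : Grow (G j)) (habs : ∀ n, G j' n = |G j n|) {k : ℕ} (h : Fin k → ℕ)
    (a : ℕ → ℕ → ℝ) (ha1 : ∀ M x, |ap a M x| ≤ 1)
    (ha2 : ∀ η : ℝ, 0 < η → ∀ ε : ℝ, 0 < ε → ∃ M0 : ℕ, ∀ M, M0 ≤ M → ∀ x : ℝ,
      (∀ k : ℤ, η < |x - k|) → |(-1 : ℝ) ^ ⌊x⌋ - ap a M x| ≤ ε) (ε : ℝ) (hε : 0 < ε) :
    ∃ M0 : ℕ, ∀ M, M0 ≤ M → ∀ᶠ N : ℕ in atTop, ∀ a0 : ℕ, N ≤ 3 * a0 → a0 ≤ N →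
      ‖((∑ n ∈ Ioc a0 N, G j n * ∏ i, glued τ δ (n + h i) : ℝ) : ℂ)
        - LM a M h d * ((∑ n ∈ Ioc a0 N, G j n : ℝ) : ℂ)‖
        ≤ ε * (N + ∑ n ∈ Ioc a0 N, |G j n|) := by
  classical
  have hk0 : (0 : ℝ) ≤ k := by positivity
  set ε1 : ℝ := ε / (24 * (k + 1)) with hε1
  have hε1pos : 0 < ε1 := by positivity
  obtain ⟨η0, hη0, hnear⟩ := near_block hF j' (fun n => by rw [habs]; exact abs_nonneg _) ε1 hε1pos
  obtain ⟨M0, hM0⟩ := ha2 η0 hη0 ε1 hε1pos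
  refine ⟨M0, fun M hM => ?_⟩
  set C1 : ℝ := 3 * (Real.log 6 + 1) + 1 with hC1
  have hlg0 : 0 ≤ Real.log 6 := Real.log_nonneg (by norm_num)
  have hC10 : 0 ≤ C1 := by positivity
  set H : ℕ := ∑ j, h j with hH
  have hHj : ∀ j, h j ≤ H := fun j =>
    Finset.single_le_sum (f := h) (fun _ _ => Nat.zero_le _) (Finset.mem_univ j)
  have hpc := piece_w hF j h a M C1 hC10 (ε / 48) (by positivity) (1 / 3) (by norm_num)
  have hnearall : ∀ᶠ i : ℕ in atTop, ∀ u : Fin k, ∀ N : ℕ, 4 ^ (i ^ 4) ≤ N →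
      N ≤ 4 ^ ((i + 1) ^ 4 + i) → ∀ t : ℝ, (t = τ i ∨ t = τ (i + 1)) →
      ∀ a : ℕ, (1 / 3 : ℝ) * N ≤ a → a ≤ N →
      ∀ B : Finset ℕ, B ⊆ Ioc a N → (∀ n ∈ B, n + h u ∈ Nr t 0 η0) →
        ∑ n ∈ B, G j' n ≤ ε1 * (N + ∑ n ∈ Ioc a N, G j' n) :=
    Filter.eventually_all.mpr fun u => hnear (h u) (1 / 3) (by norm_num)
  obtain ⟨i0, hi0⟩ := Filter.eventually_atTop.mp ((hF.slow.and hnearall).and hpc)
  filter_upwards [window τ δ (1 / 3) (by norm_num) (by norm_num) 2 i0, eventually_ge_atTop (H + 1),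
    grow_small hG (2 * H * C1) (ε / 24) (by positivity)] with N hwin hNH hgrow
  intro a0 ha0 ha0N
  obtain ⟨i, hi, hNa, hNb, κ, hκ0, hκ1, M', hM'⟩ := hwin
  obtain ⟨⟨⟨hδ1, hδ2⟩, hnr⟩, hp⟩ := hi0 i hi
  have hN1 : 1 ≤ N := by omega
  have hNpos : (0 : ℝ) < N := by exact_mod_cast hN1
  have ha0a : (1 / 3 : ℝ) * N ≤ a0 := by
    have : (N : ℝ) ≤ 3 * a0 := by exact_mod_cast ha0
    linarith
  have ha01 : 1 ≤ a0 := by omega
  have ha0R : (1 : ℝ) ≤ a0 := by exact_mod_cast ha01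
  set κ' : ℝ := κ + 1 / (2 * (i : ℝ) + 1) with hκ'
  set w : ℕ → ℝ := wt (δ i) κ κ' M' with hw
  have hw01 : ∀ m, w m = 0 ∨ w m = 1 := fun m => wt_01 _ _ _ _ _
  have hwb : ∀ n, 0 ≤ w n ∧ w n ≤ 1 := by
    intro n; rcases hw01 n with h | h <;> rw [h] <;> norm_num
  set w' : ℕ → ℝ := fun n => 1 - w n with hw'
  have hwb' : ∀ n, 0 ≤ w' n ∧ w' n ≤ 1 := by
    intro n; have := hwb n; simp only [hw']; constructor <;> linarith [this.1, this.2]
  -- the variation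
  set V : ℝ := ∑ m ∈ Ico a0 (N + H), |w (m + 1) - w m| with hV
  have hV0 : 0 ≤ V := Finset.sum_nonneg fun _ _ => abs_nonneg _
  have hVle : V ≤ C1 * (δ i + 1) := by
    have h1 := wt_var (δ i) κ κ' (by linarith) M' a0 (N + H) ha01 (by omega)
    have h2 : Real.log ((N + H : ℕ) : ℝ) - Real.log a0 ≤ Real.log 6 := by
      rw [← Real.log_div (by positivity) (by positivity)]
      apply Real.log_le_log (by positivity)
      rw [div_le_iff₀ (by positivity)]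
      have : N + H ≤ 6 * a0 := by omega
      exact_mod_cast this
    have h4 : δ i * (Real.log ((N + H : ℕ) : ℝ) - Real.log a0) ≤ δ i * Real.log 6 :=
      mul_le_mul_of_nonneg_left h2 (by linarith)
    rw [hV]
    refine h1.trans ?_
    rw [hC1]
    nlinarith
  have hVsmall : ∑ n ∈ Ico a0 N, |w (n + 1) - w n| ≤ C1 * (δ i + 1) := by
    refine le_trans ?_ hVle
    apply Finset.sum_le_sum_of_subset_of_nonneg
    · intro x hx
      rw [Finset.mem_Ico] at hx ⊢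
      omega
    · intro _ _ _; exact abs_nonneg _
  have hVsmall' : ∑ n ∈ Ico a0 N, |w' (n + 1) - w' n| ≤ C1 * (δ i + 1) := by
    refine le_trans (le_of_eq ?_) hVsmall
    refine Finset.sum_congr rfl fun n _ => ?_
    simp only [hw']
    rw [abs_sub_comm]
    congr 1; ring
  -- the local formula
  have hloc : ∀ m : ℕ, (1 / 3 : ℝ) * N ≤ m → m ≤ 2 * N →
      glued τ δ m = w m * sgn (τ i) m + (1 - w m) * sgn (τ (i + 1)) m := by
    intro m hm1 hm2
    rw [hM' m hm1 hm2, hw, ← mixf_wt]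
  set α := τ i with hα
  set β := τ (i + 1) with hβ
  set Z : ℝ := N + ∑ n ∈ Ioc a0 N, |G j n| with hZ
  have hZN : (N : ℝ) ≤ Z := by
    have : 0 ≤ ∑ n ∈ Ioc a0 N, |G j n| := Finset.sum_nonneg fun _ _ => abs_nonneg _
    linarith
  have hZ0 : 0 < Z := lt_of_lt_of_le hNpos hZN
  have hZ' : ((N : ℝ) + ∑ n ∈ Ioc a0 N, G j' n) = Z := by
    rw [hZ]; congr 1
    exact Finset.sum_congr rfl fun n _ => habs n
  -- step A
  set SA : ℝ := ∑ n ∈ Ioc a0 N, (w n * (G j n * ∏ i, sgn α (n + h i))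
    + w' n * (G j n * ∏ i, sgn β (n + h i))) with hSA
  have stepA : |∑ n ∈ Ioc a0 N, G j n * ∏ i, glued τ δ (n + h i) - SA| ≤ ε / 24 * N := by
    rw [hSA, ← Finset.sum_sub_distrib]
    refine (Finset.abs_sum_le_sum_abs _ _).trans ?_
    set gm : ℝ := ε / 24 * N / (2 * H * C1 * (Real.log N + 1)) with hgm
    have h1 : ∀ n ∈ Ioc a0 N, |G j n * ∏ i, glued τ δ (n + h i)
        - (w n * (G j n * ∏ i, sgn α (n + h i)) + w' n * (G j n * ∏ i, sgn β (n + h i)))|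
        ≤ |G j n| * (2 * ∑ i, |w (n + h i) - w n|) := by
      intro n hn
      rw [Finset.mem_Ioc] at hn
      have e : G j n * ∏ i, glued τ δ (n + h i)
          - (w n * (G j n * ∏ i, sgn α (n + h i)) + w' n * (G j n * ∏ i, sgn β (n + h i)))
          = G j n * (∏ i, glued τ δ (n + h i)
            - (w n * ∏ i, sgn α (n + h i) + (1 - w n) * ∏ i, sgn β (n + h i))) := by
        simp only [hw']; ring
      rw [e, abs_mul]
      apply mul_le_mul_of_nonneg_left _ (abs_nonneg _)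
      apply mix_prod h (glued τ δ) w (sgn α) (sgn β) n hw01 (sgn_abs α) (sgn_abs β)
      intro i
      apply hloc
      · have : (a0 : ℝ) ≤ (n + h i : ℕ) := by exact_mod_cast (by omega : a0 ≤ n + h i)
        linarith
      · have := hHj i; omega
    refine (Finset.sum_le_sum h1).trans ?_
    -- multiply out
    rcases Nat.eq_zero_or_pos H with hH0 | hHpos
    · have hz : ∀ i, h i = 0 := fun i => by have := hHj i; omega
      have : ∀ n ∈ Ioc a0 N, |G j n| * (2 * ∑ i, |w (n + h i) - w n|) = 0 := by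
        intro n _
        simp [hz]
      rw [Finset.sum_eq_zero this]
      positivity
    · have hHR : (0 : ℝ) < H := by exact_mod_cast hHpos
      have hlogN : 0 ≤ Real.log N := Real.log_nonneg (by exact_mod_cast hN1)
      have hC1pos : 0 < C1 := by rw [hC1]; positivity
      have hden : 0 < 2 * H * C1 * (Real.log N + 1) := by positivity
      have hgn : ∀ n ∈ Ioc a0 N, |G j n| ≤ gm := by
        intro n hn
        rw [hgm, le_div_iff₀ hden]
        exact hgrow n (Finset.mem_Ioc.mp hn).2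
      have hgm0 : 0 ≤ gm := by rw [hgm]; positivity
      calc ∑ n ∈ Ioc a0 N, |G j n| * (2 * ∑ i, |w (n + h i) - w n|)
          ≤ ∑ n ∈ Ioc a0 N, gm * (2 * ∑ i, |w (n + h i) - w n|) := by
            refine Finset.sum_le_sum fun n hn => ?_
            exact mul_le_mul_of_nonneg_right (hgn n hn) (by positivity)
        _ = gm * (2 * ∑ i, ∑ n ∈ Ioc a0 N, |w (n + h i) - w n|) := by
            rw [← Finset.mul_sum, ← Finset.mul_sum, Finset.sum_comm]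
        _ ≤ gm * (2 * (H * V)) := by
            apply mul_le_mul_of_nonneg_left _ hgm0
            apply mul_le_mul_of_nonneg_left _ (by norm_num)
            refine (Finset.sum_le_sum fun i _ => diff_shift w a0 N (h i) H (hHj i)).trans ?_
            rw [← Finset.sum_mul, hH]
            push_cast
            exact le_rfl
        _ ≤ gm * (2 * H * C1 * (Real.log N + 1)) := by
            apply mul_le_mul_of_nonneg_left _ hgm0
            have h5 : V ≤ C1 * (Real.log N + 1) := by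
              refine hVle.trans ?_
              apply mul_le_mul_of_nonneg_left _ hC10
              have := i_le_log hNa
              linarith
            have := mul_le_mul_of_nonneg_left h5 hHR.le
            linarith
        _ = ε / 24 * N := by rw [hgm]; field_simp
  -- step B
  have hcα : ∀ u : Fin k, ∑ n ∈ Ioc a0 N, |G j n| * |sgn α (n + h u)
      - ap a M (α * Real.log ((n + h u : ℕ) : ℝ))| ≤ 3 * ε1 * Z := by
    intro u
    have h1 := approx_sum_w (fun n => |G j n|) (fun n => abs_nonneg _) a M (ha1 M) η0 ε1 hε1pos.le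
      (hM0 M hM) α a0 N (h u) (by
        intro B hB hBn
        have h2 := hnr u N hNa hNb α (Or.inl rfl) a0 ha0a ha0N B hB hBn
        rw [hZ'] at h2
        rw [← hZ]
        refine le_trans (le_of_eq ?_) h2
        exact Finset.sum_congr rfl fun n _ => (habs n).symm)
    exact h1
  have hcβ : ∀ u : Fin k, ∑ n ∈ Ioc a0 N, |G j n| * |sgn β (n + h u)
      - ap a M (β * Real.log ((n + h u : ℕ) : ℝ))| ≤ 3 * ε1 * Z := by
    intro u
    have h1 := approx_sum_w (fun n => |G j n|) (fun n => abs_nonneg _) a M (ha1 M) η0 ε1 hε1pos.le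
      (hM0 M hM) β a0 N (h u) (by
        intro B hB hBn
        have h2 := hnr u N hNa hNb β (Or.inr rfl) a0 ha0a ha0N B hB hBn
        rw [hZ'] at h2
        rw [← hZ]
        refine le_trans (le_of_eq ?_) h2
        exact Finset.sum_congr rfl fun n _ => (habs n).symm)
    exact h1
  have pα := prod_approx_w (G j) h a M (ha1 M) α a0 N _ hcα w hwb
  have pβ := prod_approx_w (G j) h a M (ha1 M) β a0 N _ hcβ w' hwb'
  -- step C
  have qα := hp N hNa hNb α (Or.inl rfl) a0 ha0a ha0N w hwb hVsmall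
  have qβ := hp N hNa hNb β (Or.inr rfl) a0 ha0a ha0N w' hwb' hVsmall'
  rw [← hZ] at qα qβ
  set Aα : ℝ := ∑ n ∈ Ioc a0 N, w n * (G j n * ∏ i, sgn α (n + h i)) with hAα
  set Aβ : ℝ := ∑ n ∈ Ioc a0 N, w' n * (G j n * ∏ i, sgn β (n + h i)) with hAβ
  set Rα : ℝ := ∑ n ∈ Ioc a0 N, w n * (G j n * ∏ i, ap a M (α * Real.log ((n + h i : ℕ) : ℝ)))
    with hRα
  set Rβ : ℝ := ∑ n ∈ Ioc a0 N, w' n * (G j n * ∏ i, ap a M (β * Real.log ((n + h i : ℕ) : ℝ)))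
    with hRβ
  have hSAeq : SA = Aα + Aβ := by
    rw [hSA, hAα, hAβ, Finset.sum_add_distrib]
  have qα' : ‖((Rα : ℝ) : ℂ) - LM a M h d * ((∑ n ∈ Ioc a0 N, w n * G j n : ℝ) : ℂ)‖
      ≤ ε / 48 * Z := by
    rw [hRα]; push_cast; push_cast at qα; exact qα
  have qβ' : ‖((Rβ : ℝ) : ℂ) - LM a M h d * ((∑ n ∈ Ioc a0 N, w' n * G j n : ℝ) : ℂ)‖
      ≤ ε / 48 * Z := by
    rw [hRβ]; push_cast; push_cast at qβ; exact qβ
  have hww : (∑ n ∈ Ioc a0 N, w n * G j n) + (∑ n ∈ Ioc a0 N, w' n * G j n)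
      = ∑ n ∈ Ioc a0 N, G j n := by
    rw [← Finset.sum_add_distrib]
    exact Finset.sum_congr rfl fun n _ => by simp only [hw']; ring
  set S : ℝ := ∑ n ∈ Ioc a0 N, G j n * ∏ i, glued τ δ (n + h i) with hS
  have hreal : |S - (Rα + Rβ)| ≤ ε / 24 * N + 2 * (k * (3 * ε1 * Z)) := by
    have e : S - (Rα + Rβ) = (S - SA) + ((Aα - Rα) + (Aβ - Rβ)) := by
      rw [hSAeq]; ring
    rw [e]
    have t1 := abs_add_le (S - SA) ((Aα - Rα) + (Aβ - Rβ))
    have t3 := abs_add_le (Aα - Rα) (Aβ - Rβ)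
    linarith
  have e : ((S : ℝ) : ℂ) - LM a M h d * ((∑ n ∈ Ioc a0 N, G j n : ℝ) : ℂ)
      = (((S - (Rα + Rβ) : ℝ)) : ℂ)
        + ((((Rα : ℝ) : ℂ) - LM a M h d * ((∑ n ∈ Ioc a0 N, w n * G j n : ℝ) : ℂ))
          + (((Rβ : ℝ) : ℂ) - LM a M h d * ((∑ n ∈ Ioc a0 N, w' n * G j n : ℝ) : ℂ))) := by
    rw [← hww]
    push_cast
    ring
  rw [e]
  have t2 := norm_add_le (((S - (Rα + Rβ) : ℝ)) : ℂ)
      ((((Rα : ℝ) : ℂ) - LM a M h d * ((∑ n ∈ Ioc a0 N, w n * G j n : ℝ) : ℂ))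
          + (((Rβ : ℝ) : ℂ) - LM a M h d * ((∑ n ∈ Ioc a0 N, w' n * G j n : ℝ) : ℂ)))
  have t3 := norm_add_le (((Rα : ℝ) : ℂ) - LM a M h d * ((∑ n ∈ Ioc a0 N, w n * G j n : ℝ) : ℂ))
          (((Rβ : ℝ) : ℂ) - LM a M h d * ((∑ n ∈ Ioc a0 N, w' n * G j n : ℝ) : ℂ))
  have t4 : ‖(((S - (Rα + Rβ) : ℝ)) : ℂ)‖ ≤ ε / 24 * N + 2 * (k * (3 * ε1 * Z)) := by
    rw [Complex.norm_real, Real.norm_eq_abs]; exact hreal
  have n3 : 2 * (k * (3 * ε1 * Z)) ≤ ε / 4 * Z := by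
    have h1 : k * ε1 ≤ ε / 24 := by
      rw [hε1, ← mul_div_assoc, div_le_div_iff₀ (by positivity) (by norm_num)]
      nlinarith
    have h2 := mul_le_mul_of_nonneg_right h1 hZ0.le
    linarith
  have n4 : ε / 24 * (N : ℝ) ≤ ε / 24 * Z := mul_le_mul_of_nonneg_left hZN (by positivity)
  have n5 : 0 ≤ ε * Z := by positivity
  linarith

/-- All weighted correlations of the glued function. -/
theorem corr_w {d : ℕ} {σ : ℕ → ℝ} {G : ℕ → ℕ → ℝ} {τ δ : ℕ → ℝ} (hF : WFreq d σ G τ δ)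
    (j j' : ℕ) (hG : Grow (G j)) (habs : ∀ n, G j' n = |G j n|) {k : ℕ} (h : Fin k → ℕ)
    (a : ℕ → ℕ → ℝ) (ha1 : ∀ M x, |ap a M x| ≤ 1)
    (ha2 : ∀ η : ℝ, 0 < η → ∀ ε : ℝ, 0 < ε → ∃ M0 : ℕ, ∀ M, M0 ≤ M → ∀ x : ℝ,
      (∀ k : ℤ, η < |x - k|) → |(-1 : ℝ) ^ ⌊x⌋ - ap a M x| ≤ ε) (ε : ℝ) (hε : 0 < ε) :
    ∃ M0 : ℕ, ∀ M, M0 ≤ M → ∀ᶠ N : ℕ in atTop,
      ‖((∑ n ∈ Ioc 0 N, G j n * ∏ i, glued τ δ (n + h i) : ℝ) : ℂ)
        - LM a M h d * ((∑ n ∈ Ioc 0 N, G j n : ℝ) : ℂ)‖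
        ≤ ε * (N + ∑ n ∈ Ioc 0 N, |G j n|) := by
  classical
  obtain ⟨M0, hM0⟩ := block_w hF j j' hG habs h a ha1 ha2 (ε / 3) (by positivity)
  refine ⟨M0, fun M hM => ?_⟩
  obtain ⟨N1, hN1⟩ := Filter.eventually_atTop.mp (hM0 M hM)
  set D : ℕ → ℂ := fun N => ((∑ n ∈ Ioc 0 N, G j n * ∏ i, glued τ δ (n + h i) : ℝ) : ℂ)
        - LM a M h d * ((∑ n ∈ Ioc 0 N, G j n : ℝ) : ℂ) with hD
  set C0 : ℝ := ∑ N ∈ range (N1 + 2), ‖D N‖ with hC0
  have hC00 : 0 ≤ C0 := Finset.sum_nonneg fun _ _ => norm_nonneg _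
  have key : ∀ N : ℕ, ‖D N‖ ≤ ε / 3 * (2 * N + ∑ n ∈ Ioc 0 N, |G j n|) + C0 := by
    intro N
    induction N using Nat.strong_induction_on with
    | _ N ih =>
      have hs0 : 0 ≤ ∑ n ∈ Ioc 0 N, |G j n| := Finset.sum_nonneg fun _ _ => abs_nonneg _
      by_cases hN : N < N1 + 2
      · have h1 : ‖D N‖ ≤ C0 := Finset.single_le_sum (f := fun N => ‖D N‖)
          (fun _ _ => norm_nonneg _) (Finset.mem_range.mpr hN)
        have h2 : 0 ≤ ε / 3 * (2 * N + ∑ n ∈ Ioc 0 N, |G j n|) := by positivity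
        linarith
      · push Not at hN
        have ih' := ih (N / 2) (by omega)
        have hb := hN1 N (by omega) (N / 2) (by omega) (by omega)
        have e1 : ∀ u : ℕ → ℝ, ∑ n ∈ Ioc 0 N, u n = ∑ n ∈ Ioc 0 (N / 2), u n
            + ∑ n ∈ Ioc (N / 2) N, u n := fun u =>
          (Finset.sum_Ioc_consecutive u (Nat.zero_le _) (by omega)).symm
        have e2 : D N = D (N / 2)
            + (((∑ n ∈ Ioc (N / 2) N, G j n * ∏ i, glued τ δ (n + h i) : ℝ) : ℂ)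
              - LM a M h d * ((∑ n ∈ Ioc (N / 2) N, G j n : ℝ) : ℂ)) := by
          simp only [hD]
          rw [e1 (fun n => G j n * ∏ i, glued τ δ (n + h i)), e1 (fun n => G j n)]
          push_cast
          ring
        rw [e2, e1 (fun n => |G j n|)]
        refine (norm_add_le _ _).trans ?_
        have h3 : (2 : ℝ) * ((N / 2 : ℕ) : ℝ) ≤ N := by
          have : 2 * (N / 2) ≤ N := by omega
          exact_mod_cast this
        have h4 := mul_le_mul_of_nonneg_left h3 (show 0 ≤ ε / 3 by positivity)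
        linarith
  filter_upwards [(tendsto_natCast_atTop_atTop (R := ℝ)).eventually_ge_atTop (3 * C0 / ε)]
    with N hN
  have h1 := key N
  have hs0 : 0 ≤ ∑ n ∈ Ioc 0 N, |G j n| := Finset.sum_nonneg fun _ _ => abs_nonneg _
  rw [div_le_iff₀ hε] at hN
  have h2 : 0 ≤ ε * ∑ n ∈ Ioc 0 N, |G j n| := by positivity
  show ‖D N‖ ≤ _
  linarith

end Pool.Agent.Helper8.Transfer
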