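import Mathlib
import Pool.Agent.Helper29.Transfer.MS
import Pool.Agent.Helper36.Transfer.ChooseTau

/-!
# Choice of the frequencies, with weights
-/

namespace Pool.Agent.Helper8.Transfer

open Polynomial Finset Filter Topology Pool.Agent.Helper8.Dilation Pool.Agent.Helper8.Order

lemma grow_pow8 {g : ℕ → ℝ} (hg : Grow g) : ∃ B : ℝ, 0 < B ∧ ∀ y n : ℕ, n ≤ y ^ 8 →
    |g n| ^ 2 ≤ B * ((y : ℝ) + 1) := by
  obtain ⟨B, hB, h⟩ := hg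
  refine ⟨B + 1, by linarith, fun y n hn => ?_⟩
  by_contra hcon
  push Not at hcon
  have hy : (0 : ℝ) ≤ y := by positivity
  have h3 : ((B + 1) * ((y : ℝ) + 1)) ^ 8 < (|g n| ^ 2) ^ 8 :=
    pow_lt_pow_left₀ hcon (by positivity) (by norm_num)
  rw [← pow_mul, show 2 * 8 = 16 from rfl, mul_pow] at h3
  have h4 := h n
  have hnR : (n : ℝ) ≤ (y : ℝ) ^ 8 := by exact_mod_cast hn
  have h5 : (y : ℝ) ^ 8 + 1 ≤ ((y : ℝ) + 1) ^ 8 := by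
    have e : ((y : ℝ) + 1) ^ 8 = (y : ℝ) ^ 8 + 1 + (8 * y ^ 7 + 28 * y ^ 6 + 56 * y ^ 5
      + 70 * y ^ 4 + 56 * y ^ 3 + 28 * y ^ 2 + 8 * y) := by ring
    rw [e]
    have : (0 : ℝ) ≤ 8 * y ^ 7 + 28 * y ^ 6 + 56 * y ^ 5 + 70 * y ^ 4 + 56 * y ^ 3 + 28 * y ^ 2
      + 8 * y := by positivity
    linarith
  have h6 : B + 1 ≤ (B + 1) ^ 8 := by
    calc B + 1 = (B + 1) ^ 1 := (pow_one _).symm
      _ ≤ (B + 1) ^ 8 := pow_le_pow_right₀ (by linarith) (by norm_num)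
  have h7 : B * ((n : ℝ) + 1) ≤ (B + 1) ^ 8 * ((y : ℝ) + 1) ^ 8 := by
    apply mul_le_mul (by linarith) (by linarith) (by positivity) (by positivity)
  linarith

lemma inv_sq_sum (a b : ℕ) (ha : 1 ≤ a) : ∑ y ∈ Ico a b, (1 : ℝ) / (y : ℝ) ^ 2 ≤ 2 := by
  have h : ∀ b : ℕ, ∑ y ∈ Ico 1 (b + 2), (1 : ℝ) / (y : ℝ) ^ 2 ≤ 2 - 1 / (b + 1) := by
    intro b
    induction b with
    | zero => norm_num [Finset.sum_Ico_succ_top]
    | succ b ih =>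
      rw [Finset.sum_Ico_succ_top (by omega)]
      push_cast
      have hb : (0 : ℝ) ≤ b := by positivity
      have h1 : (1 : ℝ) / ((b : ℝ) + 2) ^ 2 ≤ 1 / ((b : ℝ) + 1) - 1 / ((b : ℝ) + 2) := by
        rw [div_sub_div _ _ (by positivity) (by positivity), div_le_div_iff₀ (by positivity) (by positivity)]
        nlinarith
      have e1 : (b : ℝ) + 1 + 1 = b + 2 := by ring
      rw [e1]
      linarith
  refine le_trans (Finset.sum_le_sum_of_subset_of_nonneg (t := Ico 1 (b + 2)) ?_ ?_) ?_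
  · intro y hy
    rw [Finset.mem_Ico] at hy ⊢
    omega
  · intro y _ _; positivity
  · have h1 := h b
    have h2 : (0 : ℝ) ≤ 1 / ((b : ℝ) + 1) := by positivity
    linarith

/-- prefix sums -/
noncomputable def PS (g : ℕ → ℝ) (n0 : ℕ) (p : ℤ[X]) (t : ℝ) (x : ℕ) : ℂ :=
  ∑ n ∈ Ioc n0 x, (g n : ℂ) * E t p n

lemma PS_cont (g : ℕ → ℝ) (n0 : ℕ) (p : ℤ[X]) (x : ℕ) : Continuous fun t => PS g n0 p t x := by
  unfold PS E
  fun_prop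

/-- the grid function -/
noncomputable def Gr (g : ℕ → ℝ) (n0 : ℕ) (p : ℤ[X]) (a b : ℕ) (t : ℝ) : ℝ :=
  ∑ y ∈ Ico a b, ‖PS g n0 p t (y ^ 8)‖ ^ 2 / (y : ℝ) ^ 16

lemma Gr_cont (g : ℕ → ℝ) (n0 : ℕ) (p : ℤ[X]) (a b : ℕ) : Continuous (Gr g n0 p a b) := by
  unfold Gr
  apply continuous_finsetSum
  intro y _
  exact ((PS_cont g n0 p (y ^ 8)).norm.pow 2).div_const _

lemma Gr_nonneg (g : ℕ → ℝ) (n0 : ℕ) (p : ℤ[X]) (a b : ℕ) (t : ℝ) : 0 ≤ Gr g n0 p a b t :=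
  Finset.sum_nonneg fun _ _ => by positivity

/-- the upper end of the grid -/
def gm (i : ℕ) : ℕ := ((i + 1) ^ 4 + i) / 4 + 1

lemma gm_big (i : ℕ) : 4 ^ ((i + 1) ^ 4 + i) ≤ (2 ^ gm i) ^ 8 := by
  have e : 4 ^ ((i + 1) ^ 4 + i) = 2 ^ (2 * ((i + 1) ^ 4 + i)) := by rw [pow_mul]; norm_num
  rw [← pow_mul, e]
  apply Nat.pow_le_pow_right (by norm_num)
  unfold gm
  omega

lemma gm_exp (d : ℕ) : ∀ᶠ i : ℕ in atTop, gm i * (8 * d + 3) + 2 * i ≤ (2 * d + 1) * i ^ 4 := by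
  filter_upwards [eventually_ge_atTop ((8 * d + 3) * 20 + 8)] with i hi
  have hi1 : 1 ≤ i := by omega
  have h1 := pow_step i hi1
  have h2 : i ≤ i ^ 3 := by
    calc i = i ^ 1 := (pow_one i).symm
      _ ≤ i ^ 3 := Nat.pow_le_pow_right hi1 (by norm_num)
  have h3 : 1 ≤ i ^ 3 := Nat.one_le_pow _ _ hi1
  have h4 : 4 * gm i ≤ i ^ 4 + 20 * i ^ 3 := by
    unfold gm
    have : 4 * (((i + 1) ^ 4 + i) / 4) ≤ (i + 1) ^ 4 + i := Nat.mul_div_le _ _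
    omega
  have h5 : ((8 * d + 3) * 20 + 8) * i ^ 3 ≤ i ^ 4 := by
    calc ((8 * d + 3) * 20 + 8) * i ^ 3 ≤ i * i ^ 3 := Nat.mul_le_mul_right _ hi
      _ = i ^ 4 := by ring
  have h6 : 4 * gm i * (8 * d + 3) ≤ (i ^ 4 + 20 * i ^ 3) * (8 * d + 3) := Nat.mul_le_mul_right _ h4
  have h7 : (i ^ 4 + 20 * i ^ 3) * (8 * d + 3) = (8 * d + 3) * i ^ 4 + (8 * d + 3) * 20 * i ^ 3 := by
    ring
  have h8 : ((8 * d + 3) * 20 + 8) * i ^ 3 = (8 * d + 3) * 20 * i ^ 3 + 8 * i ^ 3 := by ring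
  have h9 : 4 * ((2 * d + 1) * i ^ 4) = (8 * d + 3) * i ^ 4 + i ^ 4 := by ring
  have h10 : 4 * (gm i * (8 * d + 3) + 2 * i) = 4 * gm i * (8 * d + 3) + 8 * i := by ring
  omega

/-- The mean square of the grid function. -/
lemma grid_integral (d : ℕ) (p : ℤ[X]) (hp : ¬ ((X - 1) ^ (d + 1) ∣ p)) (g : ℕ → ℝ) (hg : Grow g) :
    ∃ n0 : ℕ, ∃ K : ℝ, 0 < K ∧ ∀ᶠ i : ℕ in atTop,
      ∫ t in ((2 : ℝ) ^ ((2 * d + 1) * i ^ 4))..(2 * (2 : ℝ) ^ ((2 * d + 1) * i ^ 4)),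
        Gr g n0 p (2 ^ i) (2 ^ gm i + 1) t ≤ K * (1 / 4) ^ i * (2 : ℝ) ^ ((2 * d + 1) * i ^ 4) := by
  obtain ⟨C, hC, n0, hms⟩ := ms d p hp
  obtain ⟨B, hB, hgB⟩ := grow_pow8 hg
  refine ⟨n0, 4 * B + 18 * B * C, by positivity, ?_⟩
  filter_upwards [gm_exp d] with i hi
  set X : ℝ := (2 : ℝ) ^ ((2 * d + 1) * i ^ 4) with hX
  have hX1 : 1 ≤ X := one_le_pow₀ (by norm_num)
  have hint : ∀ y ∈ Ico (2 ^ i) (2 ^ gm i + 1),
      ∫ t in X..(2 * X), ‖PS g n0 p t (y ^ 8)‖ ^ 2 / (y : ℝ) ^ 16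
        ≤ 2 * B * X * (1 / 2) ^ (2 * i) * (1 / (y : ℝ) ^ 2) + 18 * B * C * (2 ^ gm i) ^ (8 * d + 2) := by
    intro y hy
    rw [Finset.mem_Ico] at hy
    have hy1 : 1 ≤ y := le_trans Nat.one_le_two_pow hy.1
    have hyR : (1 : ℝ) ≤ y := by exact_mod_cast hy1
    have hy0 : (0 : ℝ) < y := by linarith
    have h1 := hms g (B * ((y : ℝ) + 1)) (by positivity) (y ^ 8) (fun n hn => hgB y n hn) X hX1
    have h2 : ∫ t in X..(2 * X), ‖PS g n0 p t (y ^ 8)‖ ^ 2 / (y : ℝ) ^ 16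
        = (∫ t in X..(2 * X), ‖∑ n ∈ Ioc n0 (y ^ 8), (g n : ℂ) * E t p n‖ ^ 2) / (y : ℝ) ^ 16 := by
      rw [← intervalIntegral.integral_div]
      rfl
    rw [h2, div_le_iff₀ (by positivity)]
    refine h1.trans ?_
    have hlog : Real.log ((y ^ 8 : ℕ) : ℝ) ≤ 8 * (y - 1) := by
      push_cast
      rw [Real.log_pow]
      have := Real.log_le_sub_one_of_pos hy0
      push_cast
      linarith
    have h3 : 1 + Real.log ((y ^ 8 : ℕ) : ℝ) ≤ 9 * y := by linarith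
    have hyub : (y : ℝ) ≤ 2 ^ gm i := by exact_mod_cast Nat.lt_succ_iff.mp hy.2
    have hylb : (2 : ℝ) ^ i ≤ y := by exact_mod_cast hy.1
    have h4 : B * ((y : ℝ) + 1) * (X * ((y ^ 8 : ℕ) : ℝ) + C * ((y ^ 8 : ℕ) : ℝ) ^ (d + 2)
        * (1 + Real.log ((y ^ 8 : ℕ) : ℝ)))
        ≤ B * (2 * y) * (X * (y : ℝ) ^ 8 + C * ((y : ℝ) ^ 8) ^ (d + 2) * (9 * y)) := by
      have hlog0 : 0 ≤ Real.log ((y ^ 8 : ℕ) : ℝ) :=
        Real.log_nonneg (by exact_mod_cast Nat.one_le_pow _ _ hy1)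
      push_cast at h3 hlog0 ⊢
      have hbr : (0 : ℝ) ≤ X * (y : ℝ) ^ 8 + C * ((y : ℝ) ^ 8) ^ (d + 2)
          * (1 + Real.log ((y : ℝ) ^ 8)) := by positivity
      gcongr
      linarith
    refine h4.trans ?_
    have h5 : B * (2 * y) * (X * (y : ℝ) ^ 8 + C * ((y : ℝ) ^ 8) ^ (d + 2) * (9 * y))
        = 2 * B * X * (y : ℝ) ^ 9 + 18 * B * C * (y : ℝ) ^ (8 * d + 2) * (y : ℝ) ^ 16 := by
      rw [← pow_mul]
      have : (y : ℝ) ^ (8 * (d + 2)) = (y : ℝ) ^ (8 * d) * (y : ℝ) ^ 16 := by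
        rw [← pow_add]; congr 1
      rw [this]
      have : (y : ℝ) ^ (8 * d + 2) = (y : ℝ) ^ (8 * d) * (y : ℝ) ^ 2 := by rw [pow_add]
      rw [this]
      ring
    rw [h5, add_mul]
    apply add_le_add
    · have h6 : (1 : ℝ) ≤ (1 / 2) ^ (2 * i) * (y : ℝ) ^ 2 := by
        have : (1 / 2 : ℝ) ^ (2 * i) * (2 ^ i) ^ 2 = 1 := by
          rw [← pow_mul, mul_comm i 2, ← mul_pow]; norm_num
        calc (1 : ℝ) = (1 / 2 : ℝ) ^ (2 * i) * (2 ^ i) ^ 2 := this.symm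
          _ ≤ (1 / 2 : ℝ) ^ (2 * i) * (y : ℝ) ^ 2 := by gcongr
      have h7 : (y : ℝ) ^ 9 ≤ (y : ℝ) ^ 12 := pow_le_pow_right₀ hyR (by norm_num)
      have h8 : 2 * B * X * (1 / 2) ^ (2 * i) * (1 / (y : ℝ) ^ 2) * (y : ℝ) ^ 16
          = 2 * B * X * (y : ℝ) ^ 12 * ((1 / 2) ^ (2 * i) * (y : ℝ) ^ 2) := by
        field_simp
      rw [h8]
      calc 2 * B * X * (y : ℝ) ^ 9 ≤ 2 * B * X * (y : ℝ) ^ 12 := by gcongr
        _ = 2 * B * X * (y : ℝ) ^ 12 * 1 := (mul_one _).symm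
        _ ≤ _ := by gcongr
    · gcongr
  have hsum : ∫ t in X..(2 * X), Gr g n0 p (2 ^ i) (2 ^ gm i + 1) t
      = ∑ y ∈ Ico (2 ^ i) (2 ^ gm i + 1), ∫ t in X..(2 * X), ‖PS g n0 p t (y ^ 8)‖ ^ 2 / (y : ℝ) ^ 16 := by
    unfold Gr
    rw [intervalIntegral.integral_finsetSum]
    intro y _
    apply Continuous.intervalIntegrable
    exact ((PS_cont g n0 p (y ^ 8)).norm.pow 2).div_const _
  rw [hsum]
  refine (Finset.sum_le_sum hint).trans ?_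
  rw [Finset.sum_add_distrib, ← Finset.mul_sum, Finset.sum_const, nsmul_eq_mul, Nat.card_Ico]
  have h1 := inv_sq_sum (2 ^ i) (2 ^ gm i + 1) Nat.one_le_two_pow
  have hX0 : 0 < X := by linarith
  have h2 : (1 / 2 : ℝ) ^ (2 * i) = (1 / 4) ^ i := by rw [pow_mul]; norm_num
  have h3 : 2 * B * X * (1 / 2) ^ (2 * i) * ∑ y ∈ Ico (2 ^ i : ℕ) (2 ^ gm i + 1), (1 : ℝ) / (y : ℝ) ^ 2
      ≤ 4 * B * (1 / 4) ^ i * X := by
    rw [h2]
    calc 2 * B * X * (1 / 4) ^ i * ∑ y ∈ Ico (2 ^ i : ℕ) (2 ^ gm i + 1), (1 : ℝ) / (y : ℝ) ^ 2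
        ≤ 2 * B * X * (1 / 4) ^ i * 2 := by gcongr
      _ = 4 * B * (1 / 4) ^ i * X := by ring
  have h4 : ((2 ^ gm i + 1 - 2 ^ i : ℕ) : ℝ) ≤ 2 ^ gm i := by
    have : 2 ^ gm i + 1 - 2 ^ i ≤ 2 ^ gm i :=
      Nat.sub_le_of_le_add (Nat.add_le_add_left Nat.one_le_two_pow _)
    exact_mod_cast this
  have h5 : ((2 : ℝ) ^ gm i) ^ (8 * d + 3) ≤ (1 / 4) ^ i * X := by
    have h6 : (2 : ℝ) ^ (gm i * (8 * d + 3) + 2 * i) ≤ X := by
      rw [hX]; exact pow_le_pow_right₀ (by norm_num) hi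
    rw [pow_add, pow_mul] at h6
    have h7 : (1 / 4 : ℝ) ^ i * 2 ^ (2 * i) = 1 := by
      rw [pow_mul, ← mul_pow]; norm_num
    calc ((2 : ℝ) ^ gm i) ^ (8 * d + 3) = (1 / 4 : ℝ) ^ i * (((2 : ℝ) ^ gm i) ^ (8 * d + 3) * 2 ^ (2 * i)) := by
          rw [mul_comm (((2 : ℝ) ^ gm i) ^ (8 * d + 3)), ← mul_assoc, h7, one_mul]
      _ ≤ (1 / 4) ^ i * X := by gcongr
  have h8 : ((2 ^ gm i + 1 - 2 ^ i : ℕ) : ℝ) * (18 * B * C * (2 ^ gm i) ^ (8 * d + 2))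
      ≤ 18 * B * C * ((1 / 4) ^ i * X) := by
    calc ((2 ^ gm i + 1 - 2 ^ i : ℕ) : ℝ) * (18 * B * C * (2 ^ gm i) ^ (8 * d + 2))
        ≤ 2 ^ gm i * (18 * B * C * (2 ^ gm i) ^ (8 * d + 2)) := by gcongr
      _ = 18 * B * C * ((2 : ℝ) ^ gm i) ^ (8 * d + 3) := by rw [pow_succ ((2 : ℝ) ^ gm i)]; ring
      _ ≤ _ := by gcongr
  calc _ ≤ 4 * B * (1 / 4) ^ i * X + 18 * B * C * ((1 / 4) ^ i * X) := add_le_add h3 h8
    _ = _ := by ring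

/-- From the grid to all points. -/
lemma grid_all (p : ℤ[X]) (g : ℕ → ℝ) (hg : Grow g) (n0 : ℕ) :
    ∃ c : ℝ, 0 < c ∧ ∀ (a b : ℕ) (t θ : ℝ), 1 ≤ a → n0 ≤ a → 0 ≤ θ → Gr g n0 p a b t ≤ θ ^ 2 →
      ∀ x : ℕ, a ^ 8 ≤ x → x < b ^ 8 →
      ‖PS g n0 p t x‖ ≤ (θ + c / Real.sqrt a) * x := by
  obtain ⟨B, hB, hgB⟩ := grow_pow8 hg
  refine ⟨255 * Real.sqrt (3 * B) + 1, by positivity, ?_⟩
  intro a b t θ ha hn0 hθ hGr x hax hxb
  set y := Nat.findGreatest (fun m => m ^ 8 ≤ x) x with hy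
  have hx1 : 1 ≤ x := le_trans (Nat.one_le_pow _ _ ha) hax
  have hselfpow : ∀ m : ℕ, m ≤ m ^ 8 := fun m => by
    rcases Nat.eq_zero_or_pos m with h | h
    · simp [h]
    · calc m = m ^ 1 := (pow_one m).symm
        _ ≤ m ^ 8 := Nat.pow_le_pow_right h (by norm_num)
  have hy1 : y ^ 8 ≤ x := Nat.findGreatest_spec (P := fun m => m ^ 8 ≤ x) (Nat.zero_le x) (by simp)
  have hay : a ≤ y := Nat.le_findGreatest ((hselfpow a).trans hax) hax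
  have hy2 : x < (y + 1) ^ 8 := by
    by_contra hcon
    push Not at hcon
    have h1 : y + 1 ≤ y := Nat.le_findGreatest ((hselfpow (y + 1)).trans hcon) hcon
    omega
  have hyb : y < b := by
    by_contra hcon
    push Not at hcon
    have := Nat.pow_le_pow_left hcon 8
    omega
  have hy1' : 1 ≤ y := ha.trans hay
  have hyR : (1 : ℝ) ≤ y := by exact_mod_cast hy1'
  have hy0 : (0 : ℝ) < y := by linarith
  have haR : (1 : ℝ) ≤ a := by exact_mod_cast ha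
  have hy8 : (y : ℝ) ^ 8 ≤ x := by exact_mod_cast hy1
  -- the grid value
  have h1 : ‖PS g n0 p t (y ^ 8)‖ ≤ θ * (y : ℝ) ^ 8 := by
    have h2 : ‖PS g n0 p t (y ^ 8)‖ ^ 2 / (y : ℝ) ^ 16 ≤ θ ^ 2 := by
      refine le_trans ?_ hGr
      unfold Gr
      exact Finset.single_le_sum (f := fun y : ℕ => ‖PS g n0 p t (y ^ 8)‖ ^ 2 / (y : ℝ) ^ 16)
        (fun _ _ => by positivity) (Finset.mem_Ico.mpr ⟨hay, hyb⟩)
    rw [div_le_iff₀ (by positivity)] at h2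
    have h3 : θ ^ 2 * (y : ℝ) ^ 16 = (θ * (y : ℝ) ^ 8) ^ 2 := by ring
    rw [h3] at h2
    exact le_of_sq_le_sq h2 (by positivity)
  -- the rest
  have hsplit : PS g n0 p t x = PS g n0 p t (y ^ 8) + ∑ n ∈ Ioc (y ^ 8) x, (g n : ℂ) * E t p n := by
    unfold PS
    exact (Finset.sum_Ioc_consecutive _ (hn0.trans (hay.trans (hselfpow y))) hy1).symm
  have h4 : ‖∑ n ∈ Ioc (y ^ 8) x, (g n : ℂ) * E t p n‖ ≤ 255 * Real.sqrt (3 * B) * x / Real.sqrt a := by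
    have h5 : ∀ n ∈ Ioc (y ^ 8) x, ‖(g n : ℂ) * E t p n‖ ≤ Real.sqrt (3 * B) * Real.sqrt y := by
      intro n hn
      rw [Finset.mem_Ioc] at hn
      rw [norm_mul, E_norm, mul_one, Complex.norm_real, Real.norm_eq_abs, ← Real.sqrt_mul (by positivity)]
      apply Real.le_sqrt_of_sq_le
      have h6 := hgB (y + 1) n (by omega)
      push_cast at h6
      nlinarith
    refine (norm_sum_le _ _).trans ((Finset.sum_le_sum h5).trans ?_)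
    rw [Finset.sum_const, Nat.card_Ioc, nsmul_eq_mul]
    have h7 : ((x - y ^ 8 : ℕ) : ℝ) ≤ 255 * (y : ℝ) ^ 7 := by
      rw [Nat.cast_sub hy1]
      have h8 : (x : ℝ) ≤ ((y : ℝ) + 1) ^ 8 := by exact_mod_cast hy2.le
      have e : ((y : ℝ) + 1) ^ 8 = (y : ℝ) ^ 8 + 8 * y ^ 7 + 28 * y ^ 6 + 56 * y ^ 5
        + 70 * y ^ 4 + 56 * y ^ 3 + 28 * y ^ 2 + 8 * y ^ 1 + 1 * y ^ 0 := by ring
      have q : ∀ r, r ≤ 7 → (y : ℝ) ^ r ≤ (y : ℝ) ^ 7 := fun r hr => pow_le_pow_right₀ hyR hr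
      have q0 := q 0 (by norm_num)
      have q1 := q 1 (by norm_num)
      have q2 := q 2 (by norm_num)
      have q3 := q 3 (by norm_num)
      have q4 := q 4 (by norm_num)
      have q5 := q 5 (by norm_num)
      have q6 := q 6 (by norm_num)
      push_cast
      linarith
    have hsy : Real.sqrt y * Real.sqrt y = y := Real.mul_self_sqrt hy0.le
    have hsa : 0 < Real.sqrt a := Real.sqrt_pos.mpr (by linarith)
    have hsay : Real.sqrt a ≤ Real.sqrt y := Real.sqrt_le_sqrt (by exact_mod_cast hay)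
    rw [le_div_iff₀ hsa]
    calc ((x - y ^ 8 : ℕ) : ℝ) * (Real.sqrt (3 * B) * Real.sqrt y) * Real.sqrt a
        ≤ (255 * (y : ℝ) ^ 7) * (Real.sqrt (3 * B) * Real.sqrt y) * Real.sqrt y := by gcongr
      _ = 255 * Real.sqrt (3 * B) * (y : ℝ) ^ 8 := by
          rw [mul_assoc, mul_assoc (Real.sqrt (3 * B)), hsy]; ring
      _ ≤ 255 * Real.sqrt (3 * B) * x := by gcongr
  rw [hsplit]
  refine (norm_add_le _ _).trans ?_
  have h9 : θ * (y : ℝ) ^ 8 ≤ θ * x := mul_le_mul_of_nonneg_left hy8 hθ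
  have h10 : 255 * Real.sqrt (3 * B) * x / Real.sqrt a
      ≤ (255 * Real.sqrt (3 * B) + 1) / Real.sqrt a * x := by
    rw [div_mul_eq_mul_div]
    apply div_le_div_of_nonneg_right _ (Real.sqrt_nonneg _)
    apply mul_le_mul_of_nonneg_right _ (by positivity)
    linarith
  rw [add_mul]
  linarith

lemma lin_geom (C r η : ℝ) (hr0 : 0 ≤ r) (hr : r < 1) (hη : 0 < η) :
    ∀ᶠ i : ℕ in atTop, (C * r ^ i) * ((i : ℝ) + 2) ≤ η := by
  have h1 : Tendsto (fun i : ℕ => (i : ℝ) * r ^ i) atTop (𝓝 0) :=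
    tendsto_self_mul_const_pow_of_lt_one hr0 hr
  have h2 : Tendsto (fun i : ℕ => r ^ i) atTop (𝓝 0) := tendsto_pow_atTop_nhds_zero_of_lt_one hr0 hr
  have h3 : Tendsto (fun i : ℕ => C * ((i : ℝ) * r ^ i + 2 * r ^ i)) atTop (𝓝 0) := by
    have := (h1.add (h2.const_mul 2)).const_mul C
    simpa using this
  filter_upwards [h3.eventually_le_const hη] with i hi
  calc (C * r ^ i) * ((i : ℝ) + 2) = C * ((i : ℝ) * r ^ i + 2 * r ^ i) := by ring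
    _ ≤ η := hi

lemma pow_gap (k : ℕ) : ∀ᶠ i : ℕ in atTop, (k + 1) * (2 ^ i) ^ 8 ≤ 4 ^ ((i - 1) ^ 4) := by
  filter_upwards [eventually_ge_atTop (k + 5)] with i hi
  obtain ⟨r, rfl⟩ : ∃ r, i = r + 1 := ⟨i - 1, by omega⟩
  have hk : k + 1 ≤ 2 ^ (k + 1) := Nat.lt_two_pow_self.le
  have e4 : ∀ m : ℕ, 4 ^ m = 2 ^ (2 * m) := fun m => by rw [pow_mul]; norm_num
  rw [e4, ← pow_mul, Nat.add_sub_cancel]
  calc (k + 1) * 2 ^ ((r + 1) * 8) ≤ 2 ^ (k + 1) * 2 ^ ((r + 1) * 8) := Nat.mul_le_mul_right _ hk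
    _ = 2 ^ (k + 1 + (r + 1) * 8) := (pow_add _ _ _).symm
    _ ≤ 2 ^ (2 * r ^ 4) := by
        apply Nat.pow_le_pow_right (by norm_num)
        have h1 : 4 ^ 3 ≤ r ^ 3 := Nat.pow_le_pow_left (by omega) 3
        have h2 : r ^ 4 = r ^ 3 * r := by ring
        have h3 : 4 ^ 3 * r ≤ r ^ 3 * r := Nat.mul_le_mul_right _ h1
        omega

/-- Existence of the frequencies. -/
theorem seq_w (d : ℕ) (σ : ℕ → ℝ) (hσ : ∀ p, σ p = 1 ∨ σ p = -1) (G : ℕ → ℕ → ℝ)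
    (hG : ∀ j, Grow (G j)) : ∃ τ δ : ℕ → ℝ, WFreq d σ G τ δ := by
  classical
  set Q : ℕ → Finset ℕ := fun k => (Finset.range (k + 1)).filter Nat.Prime with hQ
  have hQp : ∀ k, ∀ p ∈ Q k, p.Prime := fun k p hp => (Finset.mem_filter.mp hp).2
  have hkpos : ∀ k : ℕ, (0 : ℝ) < 1 / ((k : ℝ) + 1) := fun k => by positivity
  choose A hA X0 hX0 hch using fun k => choose_tau (Q k) (hQp k) σ hσ (1 / ((k : ℝ) + 1)) (hkpos k)
  choose G' _ hG' using fun k => kronDense (Q k) (hQp k) (fun _ => 1) (fun _ => Or.inl rfl)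
    (1 / ((k : ℝ) + 1)) (hkpos k)
  choose D hD1 _ mD hmD using fun k => hG' k 1
  have : Countable ℤ[X] := Cardinal.mk_le_aleph0_iff.mp
    ((Polynomial.cardinalMk_le_max (R := ℤ)).trans (by simp))
  have hne : Nonempty {p : ℤ[X] // ¬ ((X - 1) ^ (d + 1) ∣ p)} := by
    refine ⟨⟨1, ?_⟩⟩
    rintro ⟨q, hq⟩
    have h2 := congrArg (Polynomial.eval 1) hq
    simp [pow_succ] at h2
  obtain ⟨e, he⟩ := exists_surjective_nat {p : ℤ[X] // ¬ ((X - 1) ^ (d + 1) ∣ p)}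
  choose n0 K hK hint using fun (j s : ℕ) => grid_integral d (e s).1 (e s).2 (G j) (hG j)
  choose c hc hall using fun (j s : ℕ) => grid_all (e s).1 (G j) (hG j) (n0 j s)
  have hgood : ∀ k, ∀ᶠ i : ℕ in atTop,
      (∃ τ : ℝ, (2 : ℝ) ^ ((2 * d + 1) * i ^ 4) ≤ τ ∧ τ ≤ 2 * (2 : ℝ) ^ ((2 * d + 1) * i ^ 4) ∧
        (∃ m : ℕ → ℤ, ∀ p ∈ Q k, |τ * Real.log p - m p| ≤ 1 / ((k : ℝ) + 1) ∧
          (-1 : ℝ) ^ (m p) = σ p) ∧
        ∀ j ∈ Finset.range (k + 1), ∀ s ∈ Finset.range (k + 1),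
        ∀ N : ℕ, 4 ^ ((i - 1) ^ 4) ≤ N → N ≤ 4 ^ ((i + 1) ^ 4 + i) →
        ∀ a b : ℕ, 1 / ((k : ℝ) + 1) * N ≤ a → a ≤ b → b ≤ N →
        ‖∑ n ∈ Ioc a b, (G j n : ℂ) * E τ (e s).1 n‖ * ((i : ℝ) + 2) ≤ 1 / ((k : ℝ) + 1) * N) ∧
      D k ≤ i := by
    intro k
    set Kt : ℝ := ∑ j ∈ Finset.range (k + 1), ∑ s ∈ Finset.range (k + 1), K j s with hKt
    have hKt0 : 0 < Kt := by
      rw [hKt]
      apply Finset.sum_pos (fun j _ => Finset.sum_pos (fun s _ => hK j s) ⟨0, by simp⟩) ⟨0, by simp⟩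
    have hs2 : 0 ≤ 1 / Real.sqrt 2 ∧ 1 / Real.sqrt 2 < 1 := by
      refine ⟨by positivity, ?_⟩
      rw [div_lt_one (by positivity)]
      rw [Real.lt_sqrt (by norm_num)]; norm_num
    have ev1 : ∀ᶠ i : ℕ in atTop, ∀ j ∈ Finset.range (k + 1), ∀ s ∈ Finset.range (k + 1),
        ∫ t in ((2 : ℝ) ^ ((2 * d + 1) * i ^ 4))..(2 * (2 : ℝ) ^ ((2 * d + 1) * i ^ 4)),
          Gr (G j) (n0 j s) (e s).1 (2 ^ i) (2 ^ gm i + 1) t
          ≤ K j s * (1 / 4) ^ i * (2 : ℝ) ^ ((2 * d + 1) * i ^ 4) :=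
      (Finset.eventually_all _).mpr fun j _ => (Finset.eventually_all _).mpr fun s _ => hint j s
    have ev2 : ∀ᶠ i : ℕ in atTop, ∀ j ∈ Finset.range (k + 1), ∀ s ∈ Finset.range (k + 1),
        (c j s * (1 / Real.sqrt 2) ^ i) * ((i : ℝ) + 2) ≤ 1 / (4 * ((k : ℝ) + 1)) ∧
        n0 j s ≤ i := by
      refine (Finset.eventually_all _).mpr fun j _ => (Finset.eventually_all _).mpr fun s _ => ?_
      exact (lin_geom _ _ _ hs2.1 hs2.2 (by positivity)).and (eventually_ge_atTop _)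
    have ev3 : ∀ᶠ i : ℕ in atTop, (Real.sqrt (A k * Kt) * (1 / 2) ^ i) * ((i : ℝ) + 2)
        ≤ 1 / (4 * ((k : ℝ) + 1)) :=
      lin_geom _ _ _ (by norm_num) (by norm_num) (by positivity)
    have ev4 : ∀ᶠ i : ℕ in atTop, X0 k ≤ (2 : ℝ) ^ ((2 * d + 1) * i ^ 4) := by
      filter_upwards [tendsto_natCast_atTop_atTop.eventually_ge_atTop (X0 k)] with i hi
      refine hi.trans ?_
      have h2 : i ≤ (2 * d + 1) * i ^ 4 := by
        rcases Nat.eq_zero_or_pos i with h | h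
        · subst h; simp
        · calc i = i ^ 1 := (pow_one i).symm
            _ ≤ i ^ 4 := Nat.pow_le_pow_right h (by norm_num)
            _ ≤ (2 * d + 1) * i ^ 4 := Nat.le_mul_of_pos_left _ (by omega)
      have h3 : i < 2 ^ ((2 * d + 1) * i ^ 4) := lt_of_le_of_lt h2 (Nat.lt_pow_self (by norm_num))
      exact_mod_cast h3.le
    filter_upwards [ev1, ev2, ev3, ev4, pow_gap k,
      tendsto_natCast_atTop_atTop.eventually_ge_atTop (D k)] with i h1 h2 h3 h4 h5 h6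
    refine ⟨?_, h6⟩
    set X : ℝ := (2 : ℝ) ^ ((2 * d + 1) * i ^ 4) with hX
    set Φ : ℝ → ℝ := fun t => ∑ j ∈ Finset.range (k + 1), ∑ s ∈ Finset.range (k + 1),
      Gr (G j) (n0 j s) (e s).1 (2 ^ i) (2 ^ gm i + 1) t with hΦ
    have hΦc : Continuous Φ := by
      apply continuous_finsetSum; intro j _
      apply continuous_finsetSum; intro s _
      exact Gr_cont _ _ _ _ _
    have hΦ0 : ∀ t, 0 ≤ Φ t := fun t =>
      Finset.sum_nonneg fun _ _ => Finset.sum_nonneg fun _ _ => Gr_nonneg _ _ _ _ _ _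
    have hΦi : ∫ t in X..(2 * X), Φ t ≤ Kt * (1 / 4) ^ i * X := by
      rw [hΦ, intervalIntegral.integral_finsetSum]
      · calc ∑ j ∈ Finset.range (k + 1), ∫ t in X..(2 * X), ∑ s ∈ Finset.range (k + 1),
              Gr (G j) (n0 j s) (e s).1 (2 ^ i) (2 ^ gm i + 1) t
            = ∑ j ∈ Finset.range (k + 1), ∑ s ∈ Finset.range (k + 1), ∫ t in X..(2 * X),
              Gr (G j) (n0 j s) (e s).1 (2 ^ i) (2 ^ gm i + 1) t := by
              refine Finset.sum_congr rfl fun j _ => ?_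
              rw [intervalIntegral.integral_finsetSum]
              intro s _
              exact (Gr_cont _ _ _ _ _).intervalIntegrable _ _
          _ ≤ ∑ j ∈ Finset.range (k + 1), ∑ s ∈ Finset.range (k + 1), K j s * (1 / 4) ^ i * X :=
              Finset.sum_le_sum fun j hj => Finset.sum_le_sum fun s hs => h1 j hj s hs
          _ = Kt * (1 / 4) ^ i * X := by
              rw [hKt, Finset.sum_mul, Finset.sum_mul]
              refine Finset.sum_congr rfl fun j _ => ?_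
              rw [Finset.sum_mul, Finset.sum_mul]
      · intro j _
        apply Continuous.intervalIntegrable
        apply continuous_finsetSum; intro s _
        exact Gr_cont _ _ _ _ _
    obtain ⟨τ, hτ1, hτ2, hτ3, hm⟩ := hch k X h4 Φ hΦc hΦ0 (Kt * (1 / 4) ^ i) hΦi
    refine ⟨τ, hτ1, hτ2, hm, ?_⟩
    intro j hj s hs N hN1 hN2 a b ha hab hb
    set θ : ℝ := Real.sqrt (A k * Kt) * (1 / 2) ^ i with hθ
    have hθ0 : 0 ≤ θ := by positivity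
    have hθ2 : θ ^ 2 = A k * (Kt * (1 / 4) ^ i) := by
      rw [hθ, mul_pow, Real.sq_sqrt (mul_nonneg (hA k).le hKt0.le), ← pow_mul, mul_comm i 2, pow_mul]
      norm_num
      ring
    have hGr : Gr (G j) (n0 j s) (e s).1 (2 ^ i) (2 ^ gm i + 1) τ ≤ θ ^ 2 := by
      rw [hθ2]
      refine le_trans ?_ hτ3
      refine le_trans ?_ (Finset.single_le_sum (f := fun j => ∑ s ∈ Finset.range (k + 1),
        Gr (G j) (n0 j s) (e s).1 (2 ^ i) (2 ^ gm i + 1) τ)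
        (fun _ _ => Finset.sum_nonneg fun _ _ => Gr_nonneg _ _ _ _ _ _) hj)
      exact Finset.single_le_sum (f := fun s => Gr (G j) (n0 j s) (e s).1 (2 ^ i) (2 ^ gm i + 1) τ)
        (fun _ _ => Gr_nonneg _ _ _ _ _ _) hs
    have hi2 : i < 2 ^ i := Nat.lt_two_pow_self
    have hn0 : n0 j s ≤ 2 ^ i := (h2 j hj s hs).2.trans hi2.le
    have hsqrt : c j s / Real.sqrt ((2 ^ i : ℕ) : ℝ) = c j s * (1 / Real.sqrt 2) ^ i := by
      have e1 : ((2 ^ i : ℕ) : ℝ) = ((Real.sqrt 2) ^ i) ^ 2 := by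
        rw [← pow_mul, mul_comm i 2, pow_mul, Real.sq_sqrt (by norm_num)]
        push_cast; rfl
      rw [e1, Real.sqrt_sq (by positivity), div_pow, one_pow, mul_one_div]
    have hval : ∀ x : ℕ, (2 ^ i) ^ 8 ≤ x → x ≤ N →
        ‖PS (G j) (n0 j s) (e s).1 τ x‖ * ((i : ℝ) + 2) ≤ 1 / (2 * ((k : ℝ) + 1)) * x := by
      intro x hx1 hx2
      have h7 := hall j s (2 ^ i) (2 ^ gm i + 1) τ θ Nat.one_le_two_pow hn0 hθ0 hGr x hx1 (by
        have h8 := gm_big i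
        have h9 : (2 ^ gm i) ^ 8 < (2 ^ gm i + 1) ^ 8 := Nat.pow_lt_pow_left (by omega) (by norm_num)
        omega)
      rw [hsqrt] at h7
      have h8 := (h2 j hj s hs).1
      have h10 : (θ + c j s * (1 / Real.sqrt 2) ^ i) * ((i : ℝ) + 2) ≤ 1 / (2 * ((k : ℝ) + 1)) := by
        have e1 : 1 / (2 * ((k : ℝ) + 1)) = 1 / (4 * ((k : ℝ) + 1)) + 1 / (4 * ((k : ℝ) + 1)) := by
          field_simp; norm_num
        rw [add_mul, e1]
        exact add_le_add h3 h8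
      calc ‖PS (G j) (n0 j s) (e s).1 τ x‖ * ((i : ℝ) + 2)
          ≤ ((θ + c j s * (1 / Real.sqrt 2) ^ i) * x) * ((i : ℝ) + 2) :=
            mul_le_mul_of_nonneg_right h7 (by positivity)
        _ = ((θ + c j s * (1 / Real.sqrt 2) ^ i) * ((i : ℝ) + 2)) * x := by ring
        _ ≤ 1 / (2 * ((k : ℝ) + 1)) * x := mul_le_mul_of_nonneg_right h10 (by positivity)
    have hak : (2 ^ i) ^ 8 ≤ a := by
      have h7 : ((k : ℝ) + 1) * ((2 ^ i) ^ 8 : ℕ) ≤ N := by exact_mod_cast h5.trans hN1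
      have h8 : (N : ℝ) ≤ ((k : ℝ) + 1) * a := by
        have h9 := mul_le_mul_of_nonneg_left ha (show (0 : ℝ) ≤ (k : ℝ) + 1 by positivity)
        have h10 : ((k : ℝ) + 1) * (1 / ((k : ℝ) + 1) * N) = N := by field_simp
        linarith
      have h9 : ((k : ℝ) + 1) * ((2 ^ i) ^ 8 : ℕ) ≤ ((k : ℝ) + 1) * a := h7.trans h8
      have h10 : (((2 ^ i) ^ 8 : ℕ) : ℝ) ≤ a := le_of_mul_le_mul_left h9 (by positivity)
      exact_mod_cast h10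
    have hn0a : n0 j s ≤ a := by
      refine hn0.trans (le_trans ?_ hak)
      calc 2 ^ i = (2 ^ i) ^ 1 := (pow_one _).symm
        _ ≤ (2 ^ i) ^ 8 := Nat.pow_le_pow_right Nat.one_le_two_pow (by norm_num)
    have hsub : ∑ n ∈ Ioc a b, (G j n : ℂ) * E τ (e s).1 n
        = PS (G j) (n0 j s) (e s).1 τ b - PS (G j) (n0 j s) (e s).1 τ a := by
      unfold PS
      rw [← Finset.sum_Ioc_consecutive _ hn0a hab]
      ring
    rw [hsub]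
    have va := hval a hak (hab.trans hb)
    have vb := hval b (hak.trans hab) hb
    have hnorm := norm_sub_le (PS (G j) (n0 j s) (e s).1 τ b) (PS (G j) (n0 j s) (e s).1 τ a)
    have haN : (a : ℝ) ≤ N := by exact_mod_cast hab.trans hb
    have hbN : (b : ℝ) ≤ N := by exact_mod_cast hb
    have hi20 : (0 : ℝ) ≤ (i : ℝ) + 2 := by positivity
    have hcst : (0 : ℝ) ≤ 1 / (2 * ((k : ℝ) + 1)) := by positivity
    have h11 := mul_le_mul_of_nonneg_right hnorm hi20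
    have h12 := mul_le_mul_of_nonneg_left haN hcst
    have h13 := mul_le_mul_of_nonneg_left hbN hcst
    have e1 : 1 / ((k : ℝ) + 1) * N = 1 / (2 * ((k : ℝ) + 1)) * N + 1 / (2 * ((k : ℝ) + 1)) * N := by
      field_simp; norm_num
    rw [e1]
    linarith
  obtain ⟨q, hq, hqg⟩ := diag _ hgood
  have hex : ∀ i : ℕ, ∃ τ : ℝ, (D (q i) ≤ i ∧ ∃ τ' : ℝ,
      (2 : ℝ) ^ ((2 * d + 1) * i ^ 4) ≤ τ' ∧ τ' ≤ 2 * (2 : ℝ) ^ ((2 * d + 1) * i ^ 4) ∧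
        (∃ m : ℕ → ℤ, ∀ p ∈ Q (q i), |τ' * Real.log p - m p| ≤ 1 / ((q i : ℝ) + 1) ∧
          (-1 : ℝ) ^ (m p) = σ p) ∧
        ∀ j ∈ Finset.range (q i + 1), ∀ s ∈ Finset.range (q i + 1),
        ∀ N : ℕ, 4 ^ ((i - 1) ^ 4) ≤ N → N ≤ 4 ^ ((i + 1) ^ 4 + i) →
        ∀ a b : ℕ, 1 / ((q i : ℝ) + 1) * N ≤ a → a ≤ b → b ≤ N →
        ‖∑ n ∈ Ioc a b, (G j n : ℂ) * E τ' (e s).1 n‖ * ((i : ℝ) + 2)
          ≤ 1 / ((q i : ℝ) + 1) * N) →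
      (2 : ℝ) ^ ((2 * d + 1) * i ^ 4) ≤ τ ∧ τ ≤ 2 * (2 : ℝ) ^ ((2 * d + 1) * i ^ 4) ∧
        (∃ m : ℕ → ℤ, ∀ p ∈ Q (q i), |τ * Real.log p - m p| ≤ 1 / ((q i : ℝ) + 1) ∧
          (-1 : ℝ) ^ (m p) = σ p) ∧
        ∀ j ∈ Finset.range (q i + 1), ∀ s ∈ Finset.range (q i + 1),
        ∀ N : ℕ, 4 ^ ((i - 1) ^ 4) ≤ N → N ≤ 4 ^ ((i + 1) ^ 4 + i) →
        ∀ a b : ℕ, 1 / ((q i : ℝ) + 1) * N ≤ a → a ≤ b → b ≤ N →
        ‖∑ n ∈ Ioc a b, (G j n : ℂ) * E τ (e s).1 n‖ * ((i : ℝ) + 2)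
          ≤ 1 / ((q i : ℝ) + 1) * N := by
    intro i
    by_cases h : ∃ τ' : ℝ,
      (2 : ℝ) ^ ((2 * d + 1) * i ^ 4) ≤ τ' ∧ τ' ≤ 2 * (2 : ℝ) ^ ((2 * d + 1) * i ^ 4) ∧
        (∃ m : ℕ → ℤ, ∀ p ∈ Q (q i), |τ' * Real.log p - m p| ≤ 1 / ((q i : ℝ) + 1) ∧
          (-1 : ℝ) ^ (m p) = σ p) ∧
        ∀ j ∈ Finset.range (q i + 1), ∀ s ∈ Finset.range (q i + 1),
        ∀ N : ℕ, 4 ^ ((i - 1) ^ 4) ≤ N → N ≤ 4 ^ ((i + 1) ^ 4 + i) →
        ∀ a b : ℕ, 1 / ((q i : ℝ) + 1) * N ≤ a → a ≤ b → b ≤ N →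
        ‖∑ n ∈ Ioc a b, (G j n : ℂ) * E τ' (e s).1 n‖ * ((i : ℝ) + 2)
          ≤ 1 / ((q i : ℝ) + 1) * N
    · obtain ⟨τ', h'⟩ := h
      exact ⟨τ', fun _ => h'⟩
    · exact ⟨0, fun h' => absurd h'.2 h⟩
  choose τ hτ using hex
  have hτg : ∀ᶠ i : ℕ in atTop, ((2 : ℝ) ^ ((2 * d + 1) * i ^ 4) ≤ τ i ∧
        τ i ≤ 2 * (2 : ℝ) ^ ((2 * d + 1) * i ^ 4) ∧
        (∃ m : ℕ → ℤ, ∀ p ∈ Q (q i), |τ i * Real.log p - m p| ≤ 1 / ((q i : ℝ) + 1) ∧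
          (-1 : ℝ) ^ (m p) = σ p) ∧
        ∀ j ∈ Finset.range (q i + 1), ∀ s ∈ Finset.range (q i + 1),
        ∀ N : ℕ, 4 ^ ((i - 1) ^ 4) ≤ N → N ≤ 4 ^ ((i + 1) ^ 4 + i) →
        ∀ a b : ℕ, 1 / ((q i : ℝ) + 1) * N ≤ a → a ≤ b → b ≤ N →
        ‖∑ n ∈ Ioc a b, (G j n : ℂ) * E (τ i) (e s).1 n‖ * ((i : ℝ) + 2)
          ≤ 1 / ((q i : ℝ) + 1) * N) ∧ D (q i) ≤ i := by
    filter_upwards [hqg] with i hi
    exact ⟨hτ i ⟨hi.2, hi.1⟩, hi.2⟩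
  have hsmall : ∀ η : ℝ, 0 < η → ∀ᶠ i in atTop, 1 / (((q i : ℕ) : ℝ) + 1) ≤ η := by
    intro η hη
    have h1 : Tendsto (fun i => (((q i : ℕ) : ℝ))) atTop atTop :=
      tendsto_natCast_atTop_atTop.comp hq
    filter_upwards [h1.eventually_ge_atTop (1 / η)] with i hi
    rw [div_le_iff₀ (by positivity)]
    rw [div_le_iff₀ hη] at hi
    nlinarith
  refine ⟨τ, fun i => D (q i), ?_, ?_, ?_, ?_⟩
  · filter_upwards [hτg] with i hi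
    exact ⟨hi.1.1, hi.1.2.1⟩
  · filter_upwards [hτg] with i hi
    exact ⟨hD1 _, hi.2⟩
  · intro p hp η hη
    filter_upwards [hτg, hsmall η hη, hq.eventually_ge_atTop p] with i h0 h1 h2
    have hpQ : p ∈ Q (q i) := by
      simp only [hQ, Finset.mem_filter, Finset.mem_range]
      exact ⟨by omega, hp⟩
    obtain ⟨m, hm⟩ := h0.1.2.2.1
    exact ⟨⟨m p, (hm p hpQ).2, (hm p hpQ).1.trans h1⟩, mD (q i) p, (hmD (q i) p hpQ).1.trans h1⟩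
  · intro j p hp ε hε
    obtain ⟨s, hs⟩ := he ⟨p, hp⟩
    have hsp : (e s).1 = p := by rw [hs]
    have ev : ∀ᶠ i : ℕ in atTop, ((((2 : ℝ) ^ ((2 * d + 1) * i ^ 4) ≤ τ i ∧
        τ i ≤ 2 * (2 : ℝ) ^ ((2 * d + 1) * i ^ 4) ∧
        (∃ m : ℕ → ℤ, ∀ p ∈ Q (q i), |τ i * Real.log p - m p| ≤ 1 / ((q i : ℝ) + 1) ∧
          (-1 : ℝ) ^ (m p) = σ p) ∧
        ∀ j ∈ Finset.range (q i + 1), ∀ s ∈ Finset.range (q i + 1),
        ∀ N : ℕ, 4 ^ ((i - 1) ^ 4) ≤ N → N ≤ 4 ^ ((i + 1) ^ 4 + i) →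
        ∀ a b : ℕ, 1 / ((q i : ℝ) + 1) * N ≤ a → a ≤ b → b ≤ N →
        ‖∑ n ∈ Ioc a b, (G j n : ℂ) * E (τ i) (e s).1 n‖ * ((i : ℝ) + 2)
          ≤ 1 / ((q i : ℝ) + 1) * N) ∧ D (q i) ≤ i) ∧ 1 / (((q i : ℕ) : ℝ) + 1) ≤ ε) ∧ j + s ≤ q i :=
      (hτg.and (hsmall ε hε)).and (hq.eventually_ge_atTop (j + s))
    filter_upwards [ev, (tendsto_add_atTop_nat 1).eventually ev] with i h1 h2
    intro N hNa hNb t ht a b ha hab hb
    have hN0 : (0 : ℝ) ≤ N := by positivity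
    obtain ⟨⟨⟨⟨_, _, _, hb1⟩, hDi⟩, hε1⟩, hjs1⟩ := h1
    obtain ⟨⟨⟨⟨_, _, _, hb2⟩, _⟩, hε2⟩, hjs2⟩ := h2
    rcases ht with rfl | rfl
    · have h3 := hb1 j (Finset.mem_range.mpr (by omega)) s (Finset.mem_range.mpr (by omega)) N
        (le_trans (Nat.pow_le_pow_right (by norm_num) (Nat.pow_le_pow_left (by omega) 4)) hNa) hNb a b
        ((mul_le_mul_of_nonneg_right hε1 hN0).trans ha) hab hb
      rw [hsp] at h3
      have h4 := mul_le_mul_of_nonneg_left (show D (q i) + 1 ≤ (i : ℝ) + 2 by linarith)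
        (norm_nonneg (∑ n ∈ Ioc a b, (G j n : ℂ) * E (τ i) p n))
      have h5 := mul_le_mul_of_nonneg_right hε1 hN0
      linarith
    · have h3 := hb2 j (Finset.mem_range.mpr (by omega)) s (Finset.mem_range.mpr (by omega)) N
        (by rw [Nat.add_sub_cancel]; exact hNa)
        (hNb.trans (Nat.pow_le_pow_right (by norm_num)
          (Nat.add_le_add (Nat.pow_le_pow_left (by omega) 4) (by omega)))) a b
        ((mul_le_mul_of_nonneg_right hε2 hN0).trans ha) hab hb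
      rw [hsp] at h3
      have h4 := mul_le_mul_of_nonneg_left (show D (q i) + 1 ≤ ((i + 1 : ℕ) : ℝ) + 2 by
        push_cast; linarith) (norm_nonneg (∑ n ∈ Ioc a b, (G j n : ℂ) * E (τ (i + 1)) p n))
      have h5 := mul_le_mul_of_nonneg_right hε2 hN0
      linarith

end Pool.Agent.Helper8.Transfer
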