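import Mathlib
import Pool.Agent.Helper8.Transfer.CorrW
import Pool.Agent.Helper8.Transfer.SeqW
import Pool.Agent.Helper64.HLC.AlmostW

/-!
# The core of the transfer theorem
-/

namespace Pool.Agent.Helper8.Transfer

open Polynomial Finset Filter Topology Pool.Agent.Helper8.Dilation Pool.Agent.Helper8.Order

lemma grow_one : Grow (fun _ => 1) :=
  ⟨1, one_pos, fun n => by
    have : (0 : ℝ) ≤ n := by positivity
    simp⟩

lemma grow_abs {g : ℕ → ℝ} (hg : Grow g) : Grow (fun n => |g n|) := by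
  obtain ⟨B, hB, h⟩ := hg
  exact ⟨B, hB, fun n => by rw [abs_abs]; exact h n⟩

lemma grow_of_le {g g' : ℕ → ℝ} (hg : Grow g) (h : ∀ n, |g' n| ≤ |g n|) : Grow g' := by
  obtain ⟨B, hB, hb⟩ := hg
  exact ⟨B, hB, fun n => (pow_le_pow_left₀ (abs_nonneg _) (h n) 16).trans (hb n)⟩

lemma prod_pm_abs {k : ℕ} (F : ℕ → ℝ) (hF : ∀ n, F n = 1 ∨ F n = -1) (h : Fin k → ℕ) (n : ℕ) :
    |∏ j, F (n + h j)| = 1 := by
  rw [Finset.abs_prod]
  apply Finset.prod_eq_one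
  intro j _
  rcases hF (n + h j) with e | e <;> rw [e] <;> norm_num

/-- The core of the transfer theorem. -/
theorem core (d : ℕ) (F : ℕ → ℝ) (hF : CompMult F) (V : ℕ → ℕ → ℝ) (hV : ∀ i, Grow (V i)) :
    ∃ g : ℕ → ℝ, (∀ n, g n = 1 ∨ g n = -1) ∧
      (∀ p : ℕ, p.Prime → DZ {n | g (p * n) ≠ - F p * g n}) ∧
      ∀ (i k : ℕ) (h : Fin k → ℕ) (a : ℕ → ℕ → ℝ), (∀ M x, |ap a M x| ≤ 1) →
        (∀ η : ℝ, 0 < η → ∀ ε : ℝ, 0 < ε → ∃ M0 : ℕ, ∀ M, M0 ≤ M → ∀ x : ℝ,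
          (∀ k : ℤ, η < |x - k|) → |(-1 : ℝ) ^ ⌊x⌋ - ap a M x| ≤ ε) → ∀ ε : ℝ, 0 < ε →
        ∃ M0 : ℕ, ∀ M, M0 ≤ M → ∀ᶠ N : ℕ in atTop,
          ‖((∑ n ∈ Ioc 0 N, V i n * (∏ j, F (n + h j)) * ∏ j, g (n + h j) : ℝ) : ℂ)
            - LM a M h d * ((∑ n ∈ Ioc 0 N, V i n * ∏ j, F (n + h j) : ℝ) : ℂ)‖
            ≤ ε * (N + ∑ n ∈ Ioc 0 N, |V i n|) := by
  classical
  set σ : ℕ → ℝ := fun p => - F p with hσdef
  have hσ : ∀ p, σ p = 1 ∨ σ p = -1 := fun p => by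
    rcases hF.1 p with h | h <;> simp [hσdef, h]
  -- the family of weights
  set U : (ℕ ⊕ (ℕ × (Σ k : ℕ, (Fin k → ℕ)))) → ℕ → ℝ := fun s n =>
    match s with
    | Sum.inl i => if i = 0 then 1 else |V (i - 1) n|
    | Sum.inr (i, ⟨_, h⟩) => V i n * ∏ j, F (n + h j) with hU
  obtain ⟨e, he⟩ := exists_surjective_nat (ℕ ⊕ (ℕ × (Σ k : ℕ, (Fin k → ℕ))))
  have hUg : ∀ s, Grow (U s) := by
    rintro (i | ⟨i, ⟨k, h⟩⟩)
    · by_cases hi : i = 0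
      · subst hi
        simpa [hU] using grow_one
      · simp only [hU, if_neg hi]
        exact grow_abs (hV _)
    · refine grow_of_le (hV i) fun n => ?_
      simp only [hU]
      rw [abs_mul, prod_pm_abs F hF.1 h n, mul_one]
  obtain ⟨τ, δ, hW⟩ := seq_w d σ hσ (fun j => U (e j)) (fun j => hUg (e j))
  refine ⟨glued τ δ, glued_pm τ δ, ?_, ?_⟩
  · intro p hp
    obtain ⟨j, hj⟩ := he (Sum.inl 0)
    have := glued_almost_w hW ⟨j, fun n => by simp only [hj, hU]; simp⟩ hσ p hp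
    simpa [hσdef] using this
  · intro i k h a ha1 ha2 ε hε
    obtain ⟨j, hj⟩ := he (Sum.inr (i, ⟨k, h⟩))
    obtain ⟨j', hj'⟩ := he (Sum.inl (i + 1))
    have hjn : ∀ n, U (e j) n = V i n * ∏ j, F (n + h j) := fun n => by rw [hj]
    have hjabs : ∀ n, |U (e j) n| = |V i n| := fun n => by
      rw [hjn, abs_mul, prod_pm_abs F hF.1 h n, mul_one]
    have hj'n : ∀ n, U (e j') n = |V i n| := fun n => by
      rw [hj']; simp [hU]
    obtain ⟨M0, hM0⟩ := corr_w hW j j' (hUg (e j)) (fun n => by rw [hj'n, hjabs]) h a ha1 ha2 ε hε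
    refine ⟨M0, fun M hM => ?_⟩
    filter_upwards [hM0 M hM] with N hN
    have hab : ∀ n, |V i n * ∏ j, F (n + h j)| = |V i n| := fun n => by
      rw [abs_mul, prod_pm_abs F hF.1 h n, mul_one]
    simp only [hjn, hab] at hN
    exact hN

end Pool.Agent.Helper8.Transfer
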