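import Mathlib
import Pool.Agent.Helper8.Transfer.Core

/-!
# Weights of size `n ^ o(1)`
-/

namespace Pool.Agent.Helper8.Transfer

open Finset Filter Topology ArithmeticFunction

/-- `w n = O(n ^ ε)` for every `ε > 0`. -/
def Subpoly (w : ℕ → ℝ) : Prop :=
  ∀ ε : ℝ, 0 < ε → ∃ C : ℝ, ∀ n : ℕ, |w n| ≤ C * ((n : ℝ) + 1) ^ ε

lemma Subpoly.pos {w : ℕ → ℝ} (hw : Subpoly w) (ε : ℝ) (hε : 0 < ε) :
    ∃ C : ℝ, 0 < C ∧ ∀ n : ℕ, |w n| ≤ C * ((n : ℝ) + 1) ^ ε := by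
  obtain ⟨C, hC⟩ := hw ε hε
  refine ⟨max C 1, by positivity, fun n => (hC n).trans ?_⟩
  exact mul_le_mul_of_nonneg_right (le_max_left _ _) (by positivity)

lemma subpoly_of_bdd {w : ℕ → ℝ} (C : ℝ) (h : ∀ n, |w n| ≤ C) : Subpoly w := by
  intro ε hε
  refine ⟨C, fun n => (h n).trans ?_⟩
  have hC : 0 ≤ C := (abs_nonneg _).trans (h n)
  have h1 : (1 : ℝ) ≤ ((n : ℝ) + 1) ^ ε := by
    apply Real.one_le_rpow _ hε.le
    have : (0 : ℝ) ≤ n := by positivity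
    linarith
  calc C = C * 1 := (mul_one C).symm
    _ ≤ C * ((n : ℝ) + 1) ^ ε := mul_le_mul_of_nonneg_left h1 hC

lemma Subpoly.mul {w w' : ℕ → ℝ} (hw : Subpoly w) (hw' : Subpoly w') :
    Subpoly fun n => w n * w' n := by
  intro ε hε
  obtain ⟨C, hC, h⟩ := hw.pos (ε / 2) (by positivity)
  obtain ⟨C', hC', h'⟩ := hw'.pos (ε / 2) (by positivity)
  refine ⟨C * C', fun n => ?_⟩
  have hn : (0 : ℝ) < (n : ℝ) + 1 := by positivity
  rw [abs_mul]
  calc |w n| * |w' n| ≤ (C * ((n : ℝ) + 1) ^ (ε / 2)) * (C' * ((n : ℝ) + 1) ^ (ε / 2)) :=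
        mul_le_mul (h n) (h' n) (abs_nonneg _) (by positivity)
    _ = C * C' * (((n : ℝ) + 1) ^ (ε / 2) * ((n : ℝ) + 1) ^ (ε / 2)) := by ring
    _ = C * C' * ((n : ℝ) + 1) ^ ε := by rw [← Real.rpow_add hn, add_halves]

lemma subpoly_prod {ι : Type*} (s : Finset ι) (w : ι → ℕ → ℝ) (hw : ∀ i, Subpoly (w i)) :
    Subpoly fun n => ∏ i ∈ s, w i n := by
  classical
  induction s using Finset.induction_on with
  | empty =>
    simp only [Finset.prod_empty]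
    exact subpoly_of_bdd 1 (fun n => by simp)
  | insert b s hb ih =>
    simp only [Finset.prod_insert hb]
    exact (hw b).mul ih

lemma subpoly_vonMangoldt (a : ℕ) : Subpoly fun n => vonMangoldt (n + a) := by
  intro ε hε
  refine ⟨((a : ℝ) + 1) ^ ε / ε, fun n => ?_⟩
  rw [abs_of_nonneg vonMangoldt_nonneg]
  refine vonMangoldt_le_log.trans ?_
  have hn : (0 : ℝ) ≤ n := by positivity
  have ha : (0 : ℝ) ≤ a := by positivity
  refine (Real.log_le_rpow_div (by positivity) hε).trans ?_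
  rw [div_mul_eq_mul_div]
  apply div_le_div_of_nonneg_right _ hε.le
  rw [← Real.mul_rpow (by positivity) (by positivity)]
  apply Real.rpow_le_rpow (by positivity) _ hε.le
  push_cast
  nlinarith

lemma grow_of_subpoly {w : ℕ → ℝ} (hw : Subpoly w) : Grow w := by
  obtain ⟨C, hC, h⟩ := hw.pos (1 / 16) (by norm_num)
  refine ⟨C ^ 16, by positivity, fun n => ?_⟩
  have hn : (0 : ℝ) ≤ (n : ℝ) + 1 := by positivity
  calc |w n| ^ 16 ≤ (C * ((n : ℝ) + 1) ^ (1 / 16 : ℝ)) ^ 16 :=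
        pow_le_pow_left₀ (abs_nonneg _) (h n) 16
    _ = C ^ 16 * ((n : ℝ) + 1) := by
        rw [mul_pow, ← Real.rpow_natCast (((n : ℝ) + 1) ^ (1 / 16 : ℝ)), ← Real.rpow_mul hn]
        norm_num

end Pool.Agent.Helper8.Transfer
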