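import Mathlib
import Pool.Agent.Helper8.DilationLib
import Pool.Agent.Helper8.Order.Eval
import Pool.Agent.Helper79.Order.Module6

/-!
# The constants of the correlations of the glued function
-/

namespace Pool.Agent.Helper8.Transfer

open Polynomial Finset Filter Topology Pool.Agent.Helper8.Dilation Pool.Agent.Helper8.Order

lemma mem_T {M : ℕ} {t : ℕ × ℤ} : t ∈ T M ↔ t.1 ≤ M ∧ (t.2 = 1 ∨ t.2 = -1) := by
  unfold T
  rw [Finset.mem_product, Finset.mem_range]
  simp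

lemma frq_odd {M : ℕ} {t : ℕ × ℤ} (ht : t ∈ T M) : Odd (frq t) := by
  unfold frq
  apply Odd.mul
  · rcases (mem_T.mp ht).2 with h | h <;> rw [h] <;> decide
  · exact odd_two_mul_add_one _

lemma frq_sign {M : ℕ} {t : ℕ × ℤ} (ht : t ∈ T M) : (frq t).sign = t.2 := by
  unfold frq
  rw [Int.sign_mul]
  have h1 : (2 * (t.1 : ℤ) + 1).sign = 1 := Int.sign_eq_one_of_pos (by positivity)
  rw [h1, mul_one]
  rcases (mem_T.mp ht).2 with h | h <;> rw [h] <;> rfl

lemma coeff_pol {k : ℕ} (h : Fin k → ℕ) (hinj : Function.Injective h) (t : Fin k → ℕ × ℤ) (j : Fin k) :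
    (pol h t).coeff (h j) = frq (t j) := by
  unfold pol
  rw [finsetSum_coeff, Finset.sum_eq_single j]
  · simp
  · intro b _ hb
    rw [coeff_C_mul, coeff_X_pow, if_neg (fun h' => hb (hinj h'.symm)), mul_zero]
  · intro hj; exact absurd (Finset.mem_univ j) hj

lemma card_pol {k : ℕ} (h : Fin k → ℕ) (t : Fin k → ℕ × ℤ) : (pol h t).support.card ≤ k := by
  classical
  have h1 : (pol h t).support ⊆ Finset.univ.image h := by
    intro n hn
    unfold pol at hn
    rw [mem_support_iff, finsetSum_coeff] at hn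
    obtain ⟨j, _, hj⟩ := Finset.exists_ne_zero_of_sum_ne_zero hn
    rw [coeff_C_mul, coeff_X_pow] at hj
    rw [Finset.mem_image]
    refine ⟨j, Finset.mem_univ j, ?_⟩
    by_contra hne
    rw [if_neg (fun h' => hne h'.symm), mul_zero] at hj
    exact hj rfl
  refine (Finset.card_le_card h1).trans ((Finset.card_image_le).trans ?_)
  simp

/-- No resonances below the critical order, nor for odd orders. -/
lemma LM_zero {k : ℕ} (a : ℕ → ℕ → ℝ) (M : ℕ) (h : Fin k → ℕ) (hinj : Function.Injective h) (d : ℕ)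
    (hk : 1 ≤ k) (hcase : k ≤ d + 1 ∨ Odd k) : LM a M h d = 0 := by
  classical
  unfold LM
  apply Finset.sum_eq_zero
  intro t ht
  exfalso
  rw [Finset.mem_filter, Fintype.mem_piFinset] at ht
  obtain ⟨htT, hdvd⟩ := ht
  rcases hcase with hk2 | hodd
  · have hne : pol h t ≠ 0 := by
      intro h0
      have h1 := coeff_pol h hinj t ⟨0, hk⟩
      rw [h0, coeff_zero] at h1
      have h2 := frq_odd (htT ⟨0, hk⟩)
      rw [← h1] at h2
      exact absurd h2 (by decide)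
    exact Pool.Agent.Helper79.Order.not_dvd_of_card k _ hne (card_pol h t)
      ((pow_dvd_pow _ hk2).trans hdvd)
  · obtain ⟨q, hq⟩ := hdvd
    have h1 := congrArg (Polynomial.eval 1) hq
    simp only [eval_mul, eval_pow, eval_sub, eval_X, eval_one, sub_self] at h1
    rw [zero_pow (by omega), zero_mul] at h1
    unfold pol at h1
    rw [eval_finsetSum] at h1
    simp only [eval_mul, eval_C, eval_pow, eval_X, one_pow, mul_one] at h1
    have h2 : ∀ s : Finset (Fin k), (∑ j ∈ s, frq (t j)) % 2 = (s.card : ℤ) % 2 := by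
      intro s
      induction s using Finset.induction_on with
      | empty => simp
      | insert b s hb ih =>
        rw [Finset.sum_insert hb, Finset.card_insert_of_notMem hb]
        have h3 := Int.odd_iff.mp (frq_odd (htT b))
        push_cast
        omega
    have h4 := h2 Finset.univ
    rw [h1, Finset.card_univ, Fintype.card_fin] at h4
    have h5 := Nat.odd_iff.mp hodd
    omega

/-- The resonances add up at the critical order. -/
lemma LM_lower (m : ℕ) (hm : 1 ≤ m) (a : ℕ → ℕ → ℝ) (ha0 : ∀ M j, 0 ≤ a M j)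
    (ha3 : ∀ j : ℕ, ∃ c : ℝ, 0 < c ∧ ∃ M0 : ℕ, ∀ M, M0 ≤ M → c ≤ a M j)
    (h : Fin (2 * m) → ℕ) (hinj : Function.Injective h) (c : Fin (2 * m) → ℤ) (hc : ∀ j, Odd (c j))
    (hdvd : (X - 1) ^ (2 * m - 1) ∣ ∑ j, C (c j) * X ^ (h j)) :
    ∃ c0 : ℝ, 0 < c0 ∧ ∃ M0 : ℕ, ∀ M, M0 ≤ M → c0 ≤ ‖LM a M h (2 * m - 2)‖ := by
  classical
  choose lo hlo M1 hM1 using ha3
  set ts : Fin (2 * m) → ℕ × ℤ := fun j => (((c j).natAbs - 1) / 2, (c j).sign) with hts
  have hcne : ∀ j, c j ≠ 0 := by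
    intro j h0
    have := hc j
    rw [h0] at this
    exact absurd this (by decide)
  have hfts : ∀ j, frq (ts j) = c j := by
    intro j
    simp only [hts, frq]
    have h1 : Odd (c j).natAbs := Int.natAbs_odd.mpr (hc j)
    obtain ⟨r, hr⟩ := h1
    have h2 : ((c j).natAbs - 1) / 2 = r := by omega
    rw [h2]
    have h3 : (2 * (r : ℤ) + 1) = ((c j).natAbs : ℤ) := by rw [hr]; push_cast; ring
    rw [h3]
    exact Int.sign_mul_natAbs (c j)
  have hsgn : ∀ j, (c j).sign = 1 ∨ (c j).sign = -1 := by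
    intro j
    rcases lt_or_gt_of_ne (hcne j) with h1 | h1
    · right; exact Int.sign_eq_neg_one_of_neg h1
    · left; exact Int.sign_eq_one_of_pos h1
  refine ⟨(∏ j, lo (ts j).1) / 2 ^ (2 * m), by
      apply div_pos (Finset.prod_pos fun j _ => hlo _) (by positivity),
    (∑ j, (ts j).1) + ∑ j, M1 (ts j).1, ?_⟩
  intro M hM
  have hts1 : ∀ j, (ts j).1 ≤ M := by
    intro j
    have : (ts j).1 ≤ ∑ j, (ts j).1 :=
      Finset.single_le_sum (f := fun j => (ts j).1) (fun _ _ => Nat.zero_le _) (Finset.mem_univ j)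
    omega
  have hM1' : ∀ j, M1 (ts j).1 ≤ M := by
    intro j
    have : M1 (ts j).1 ≤ ∑ j, M1 (ts j).1 :=
      Finset.single_le_sum (f := fun j => M1 (ts j).1) (fun _ _ => Nat.zero_le _) (Finset.mem_univ j)
    omega
  have hd : 2 * m - 2 + 1 = 2 * m - 1 := by omega
  set σ : ℤ := ∏ j, (c j).sign with hσ
  have hσabs : |(σ : ℝ)| = 1 := by
    rw [hσ]
    push_cast
    rw [Finset.abs_prod]
    apply Finset.prod_eq_one
    intro j _
    rcases hsgn j with h1 | h1 <;> rw [h1] <;> norm_num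
  have hterm : ∀ t ∈ (Fintype.piFinset (fun _ : Fin (2 * m) => T M)).filter
      (fun t => (X - 1) ^ (2 * m - 2 + 1) ∣ pol h t),
      ∏ j, coef a M (t j) = ((∏ j, a M (t j).1 : ℝ) : ℂ) * ((σ : ℂ) / (2 * Complex.I) ^ (2 * m)) := by
    intro t ht
    rw [Finset.mem_filter, Fintype.mem_piFinset, hd] at ht
    obtain ⟨htT, htd⟩ := ht
    have h1 : ∏ j, (frq (t j)).sign = σ :=
      Pool.Agent.Helper79.Order.sign_const (2 * m) ⟨m, by ring⟩ (by omega) h hinj
        (fun j => frq (t j)) c (fun j => frq_odd (htT j)) hc htd hdvd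
    have h2 : ∏ j, (t j).2 = σ := by
      rw [← h1]
      exact Finset.prod_congr rfl fun j _ => (frq_sign (htT j)).symm
    unfold coef
    rw [Finset.prod_div_distrib, Finset.prod_mul_distrib, Finset.prod_const, Finset.card_univ,
      Fintype.card_fin, ← h2]
    push_cast
    ring
  have hLM : LM a M h (2 * m - 2)
      = ((∑ t ∈ (Fintype.piFinset (fun _ : Fin (2 * m) => T M)).filter
        (fun t => (X - 1) ^ (2 * m - 2 + 1) ∣ pol h t), ∏ j, a M (t j).1 : ℝ) : ℂ)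
        * ((σ : ℂ) / (2 * Complex.I) ^ (2 * m)) := by
    unfold LM
    rw [Finset.sum_congr rfl hterm, ← Finset.sum_mul]
    push_cast
    rfl
  have htsmem : ts ∈ (Fintype.piFinset (fun _ : Fin (2 * m) => T M)).filter
      (fun t => (X - 1) ^ (2 * m - 2 + 1) ∣ pol h t) := by
    rw [Finset.mem_filter, Fintype.mem_piFinset, hd]
    refine ⟨fun j => mem_T.mpr ⟨hts1 j, hsgn j⟩, ?_⟩
    unfold pol
    simp_rw [hfts]
    exact hdvd
  have hsum : ∏ j, lo (ts j).1 ≤ ∑ t ∈ (Fintype.piFinset (fun _ : Fin (2 * m) => T M)).filter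
        (fun t => (X - 1) ^ (2 * m - 2 + 1) ∣ pol h t), ∏ j, a M (t j).1 := by
    refine le_trans ?_ (Finset.single_le_sum (f := fun t => ∏ j, a M (t j).1)
      (fun t _ => Finset.prod_nonneg fun j _ => ha0 _ _) htsmem)
    exact Finset.prod_le_prod (fun j _ => (hlo _).le) (fun j _ => hM1 _ M (hM1' j))
  rw [hLM, norm_mul, norm_div, norm_pow, norm_mul, Complex.norm_I, Complex.norm_real,
    Real.norm_eq_abs, Complex.norm_intCast, hσabs]
  have h2 : ‖(2 : ℂ)‖ = 2 := by simp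
  rw [h2, mul_one, mul_one_div]
  apply div_le_div_of_nonneg_right _ (by positivity)
  exact hsum.trans (le_abs_self _)

/-- A real sequence close to constants converges. -/
lemma conv_of_close (x : ℕ → ℝ)
    (h : ∀ ε : ℝ, 0 < ε → ∃ z : ℂ, ∀ᶠ N : ℕ in atTop, ‖((x N : ℝ) : ℂ) - z‖ ≤ ε) :
    ∃ c, Tendsto x atTop (𝓝 c) := by
  apply cauchySeq_tendsto_of_complete
  rw [Metric.cauchySeq_iff]
  intro ε hε
  obtain ⟨z, hz⟩ := h (ε / 3) (by positivity)
  obtain ⟨N0, hN0⟩ := Filter.eventually_atTop.mp hz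
  refine ⟨N0, fun m hm n hn => ?_⟩
  have h1 := hN0 m hm
  have h2 := hN0 n hn
  rw [Real.dist_eq]
  have h3 : |x m - x n| = ‖(((x m : ℝ) : ℂ) - z) - (((x n : ℝ) : ℂ) - z)‖ := by
    rw [sub_sub_sub_cancel_right, ← Complex.ofReal_sub, Complex.norm_real, Real.norm_eq_abs]
  rw [h3]
  have h4 := norm_sub_le (((x m : ℝ) : ℂ) - z) (((x n : ℝ) : ℂ) - z)
  linarith

/-- No resonances for odd orders. -/
lemma LM_odd {k : ℕ} (a : ℕ → ℕ → ℝ) (M : ℕ) (h : Fin k → ℕ) (d : ℕ) (hodd : Odd k) :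
    LM a M h d = 0 := by
  classical
  unfold LM
  apply Finset.sum_eq_zero
  intro t ht
  exfalso
  rw [Finset.mem_filter, Fintype.mem_piFinset] at ht
  obtain ⟨htT, hdvd⟩ := ht
  obtain ⟨q, hq⟩ := hdvd
  have h1 := congrArg (Polynomial.eval 1) hq
  simp only [eval_mul, eval_pow, eval_sub, eval_X, eval_one, sub_self] at h1
  rw [zero_pow (by omega), zero_mul] at h1
  unfold pol at h1
  rw [eval_finsetSum] at h1
  simp only [eval_mul, eval_C, eval_pow, eval_X, one_pow, mul_one] at h1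
  have h2 : ∀ s : Finset (Fin k), (∑ j ∈ s, frq (t j)) % 2 = (s.card : ℤ) % 2 := by
    intro s
    induction s using Finset.induction_on with
    | empty => simp
    | insert b s hb ih =>
      rw [Finset.sum_insert hb, Finset.card_insert_of_notMem hb]
      have h3 := Int.odd_iff.mp (frq_odd (htT b))
      push_cast
      omega
  have h4 := h2 Finset.univ
  rw [h1, Finset.card_univ, Fintype.card_fin] at h4
  have h5 := Nat.odd_iff.mp hodd
  omega

/-- For `d = 0` the resonances do not depend on the shifts. -/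
lemma LM_shift {k : ℕ} (a : ℕ → ℕ → ℝ) (M : ℕ) (h h' : Fin k → ℕ) : LM a M h 0 = LM a M h' 0 := by
  classical
  have key : ∀ (h : Fin k → ℕ) (t : Fin k → ℕ × ℤ),
      ((X - 1 : ℤ[X]) ^ (0 + 1) ∣ pol h t ↔ ∑ j, frq (t j) = 0) := by
    intro h t
    have e : (X - 1 : ℤ[X]) ^ (0 + 1) = X - C 1 := by simp
    rw [e, dvd_iff_isRoot, IsRoot.def]
    unfold pol
    rw [eval_finsetSum]
    simp
  unfold LM
  congr 1
  ext t
  rw [Finset.mem_filter, Finset.mem_filter, key, key]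

/-- Existence of the constants. -/
lemma const_exists (a : ℕ → ℕ → ℝ) (ha1 : ∀ M x, |ap a M x| ≤ 1)
    (ha2 : ∀ η : ℝ, 0 < η → ∀ ε : ℝ, 0 < ε → ∃ M0 : ℕ, ∀ M, M0 ≤ M → ∀ x : ℝ,
      (∀ k : ℤ, η < |x - k|) → |(-1 : ℝ) ^ ⌊x⌋ - ap a M x| ≤ ε) (d k : ℕ) (h : Fin k → ℕ) :
    ∃ c : ℝ, (∀ ε : ℝ, 0 < ε → ∃ M0 : ℕ, ∀ M, M0 ≤ M → ‖LM a M h d - c‖ ≤ ε) ∧
      (Even k → (∀ j, h j = 0) → c = 1) := by
  obtain ⟨τ, δ, hF⟩ := seq kronDense d
  set g : ℕ → ℝ := glued τ δ with hg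
  have hcorr : ∀ ε : ℝ, 0 < ε → ∃ M0 : ℕ, ∀ M, M0 ≤ M →
      ∀ᶠ N : ℕ in atTop, ‖((avg g h N : ℝ) : ℂ) - LM a M h d‖ ≤ ε :=
    fun ε hε => corr hF h a ha1 ha2 ε hε
  obtain ⟨c, hc⟩ := conv_of_close (avg g h) (by
    intro ε hε
    obtain ⟨M0, hM0⟩ := hcorr ε hε
    exact ⟨_, hM0 M0 le_rfl⟩)
  refine ⟨c, ?_, ?_⟩
  · intro ε hε
    obtain ⟨M0, hM0⟩ := hcorr (ε / 2) (by positivity)
    refine ⟨M0, fun M hM => ?_⟩
    have h1 := hM0 M hM
    have h2 : ∀ᶠ N : ℕ in atTop, |avg g h N - c| ≤ ε / 2 := by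
      rw [Metric.tendsto_nhds] at hc
      filter_upwards [hc (ε / 2) (by positivity)] with N hN
      rw [Real.dist_eq] at hN
      exact hN.le
    obtain ⟨N, hN1, hN2⟩ := (h1.and h2).exists
    have e : LM a M h d - (c : ℂ) = -(((avg g h N : ℝ) : ℂ) - LM a M h d)
        + (((avg g h N - c : ℝ)) : ℂ) := by push_cast; ring
    rw [e]
    refine (norm_add_le _ _).trans ?_
    rw [norm_neg, Complex.norm_real, Real.norm_eq_abs]
    linarith
  · intro hk hh
    have h1 : ∀ᶠ N : ℕ in atTop, avg g h N = 1 := by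
      filter_upwards [eventually_ge_atTop 1] with N hN
      unfold avg
      have h2 : ∀ n ∈ Ioc 0 N, ∏ j, g (n + h j) = 1 := by
        intro n _
        simp_rw [hh, add_zero]
        rw [Finset.prod_const, Finset.card_univ, Fintype.card_fin]
        rcases glued_pm τ δ n with h3 | h3
        · rw [hg, h3, one_pow]
        · rw [hg, h3, hk.neg_one_pow]
      rw [Finset.sum_congr rfl h2, Finset.sum_const, Nat.card_Ioc, nsmul_eq_mul, mul_one, Nat.sub_zero]
      have : (0 : ℝ) < N := by exact_mod_cast hN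
      field_simp
    have h3 : Tendsto (avg g h) atTop (𝓝 1) :=
      tendsto_const_nhds.congr' (h1.mono fun N hN => hN.symm)
    exact tendsto_nhds_unique hc h3

/-- The constants. -/
theorem consts (m : ℕ) (hm : 1 ≤ m) (a : ℕ → ℕ → ℝ) (ha0 : ∀ M j, 0 ≤ a M j)
    (ha1 : ∀ M x, |ap a M x| ≤ 1)
    (ha2 : ∀ η : ℝ, 0 < η → ∀ ε : ℝ, 0 < ε → ∃ M0 : ℕ, ∀ M, M0 ≤ M → ∀ x : ℝ,
      (∀ k : ℤ, η < |x - k|) → |(-1 : ℝ) ^ ⌊x⌋ - ap a M x| ≤ ε)
    (ha3 : ∀ j : ℕ, ∃ c : ℝ, 0 < c ∧ ∃ M0 : ℕ, ∀ M, M0 ≤ M → c ≤ a M j) :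
    ∃ c : (k : ℕ) → (Fin k → ℕ) → ℝ,
      (∀ k (h : Fin k → ℕ), 1 ≤ k → k < 2 * m → Function.Injective h → c k h = 0) ∧
      (∀ k (h : Fin k → ℕ), Odd k → c k h = 0) ∧
      (∃ h : Fin (2 * m) → ℕ, Function.Injective h ∧ c (2 * m) h ≠ 0) ∧
      (m = 1 → ∀ k (h : Fin k → ℕ), Even k → c k h = 1) ∧
      (∀ k (h : Fin k → ℕ) (ε : ℝ), 0 < ε → ∃ M0 : ℕ, ∀ M, M0 ≤ M →
        ‖LM a M h (2 * m - 2) - c k h‖ ≤ ε) := by
  classical
  choose c hc1 hc2 using const_exists a ha1 ha2 (2 * m - 2)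
  have hzero : ∀ k (h : Fin k → ℕ), (∀ M, LM a M h (2 * m - 2) = 0) → c k h = 0 := by
    intro k h hLM
    by_contra hne
    obtain ⟨M0, hM0⟩ := hc1 k h (|c k h| / 2) (by positivity)
    have h1 := hM0 M0 le_rfl
    rw [hLM, zero_sub, norm_neg, Complex.norm_real, Real.norm_eq_abs] at h1
    have h2 : 0 < |c k h| := abs_pos.mpr hne
    linarith
  refine ⟨c, ?_, ?_, ?_, ?_, hc1⟩
  · intro k h hk1 hk2 hinj
    exact hzero k h fun M => LM_zero a M h hinj _ hk1 (Or.inl (by omega))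
  · intro k h hodd
    exact hzero k h fun M => LM_odd a M h _ hodd
  · obtain ⟨h, hinj, e, he, hdvd⟩ := Pool.Agent.Helper79.Order.exists_odd_relation m hm
    obtain ⟨c0, hc0, M1, hM1⟩ := LM_lower m hm a ha0 ha3 h hinj e he hdvd
    refine ⟨h, hinj, fun hz => ?_⟩
    obtain ⟨M0, hM0⟩ := hc1 (2 * m) h (c0 / 2) (by positivity)
    have h1 := hM0 (max M0 M1) (le_max_left _ _)
    have h2 := hM1 (max M0 M1) (le_max_right _ _)
    rw [hz, Complex.ofReal_zero, sub_zero] at h1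
    linarith
  · rintro rfl k h hk
    have h0 : c k (fun _ => 0) = 1 := hc2 k _ hk (fun _ => rfl)
    by_contra hne
    have hpos : 0 < |c k h - c k (fun _ => 0)| := by
      rw [h0]; exact abs_pos.mpr (sub_ne_zero.mpr hne)
    obtain ⟨M0, hM0⟩ := hc1 k h (|c k h - c k (fun _ => 0)| / 4) (by positivity)
    obtain ⟨M1, hM1⟩ := hc1 k (fun _ => 0) (|c k h - c k (fun _ => 0)| / 4) (by positivity)
    have h1 := hM0 (max M0 M1) (le_max_left _ _)
    have h2 := hM1 (max M0 M1) (le_max_right _ _)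
    have e0 : (2 * 1 - 2 : ℕ) = 0 := rfl
    rw [e0] at h1 h2
    rw [LM_shift a _ h (fun _ => 0)] at h1
    have h3 := norm_sub_le (LM a (max M0 M1) (fun _ : Fin k => 0) 0 - (c k (fun _ => 0) : ℂ))
      (LM a (max M0 M1) (fun _ : Fin k => 0) 0 - (c k h : ℂ))
    rw [sub_sub_sub_cancel_left, ← Complex.ofReal_sub, Complex.norm_real, Real.norm_eq_abs] at h3
    linarith

end Pool.Agent.Helper8.Transfer
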